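import Mathlib
import Pool.Agent.J4.H38.SR.Kuhn4
import Pool.Agent.J4.H38.SR3.Fx
import Pool.Agent.J4.H38.SR2.Fix5
import Pool.Agent.J4.H38.SR3.Gold
import Pool.Agent.H442R2.EHI.Defs

/-! Project CH: a theorem of Chen with a common prime. Definitions. -/

set_option autoImplicit false

namespace Pool.Agent.J4.H38.CH

open Finset Filter
open Pool.Agent.W23.DC (tt pr ind)
open Pool.Agent.Y822.F (iu)
open Pool.Agent.J4.H38.SR (Wk)
open Pool.Agent.H373R2.T7 (pz Vz mem_pz rhoA PerA)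

/-- distribution of `w` in the coprime classes to the squarefree moduli up to `Q`, on average, with main term
`W0 / φ (q)` -/
def Dist (w : ℕ → ℝ) (W0 : ℝ) (M Q : ℕ) (E : ℝ) : Prop :=
  ∀ h : ℕ → ℕ, (∀ q, (h q).Coprime q) →
    ∑ q ∈ (Icc 1 Q).filter Squarefree, |∑ n ∈ (Icc 1 M).filter (fun n => n ≡ h q [MOD q]), w n -
      W0 / (Nat.totient q : ℝ)| ≤ E

/-- the grid of the first prime factor -/
noncomputable def gr (N j : ℕ) : ℕ := ⌈(N : ℝ) ^ (1 / 8 : ℝ) * (201 / 200 : ℝ) ^ j⌉₊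

open Classical in
/-- the first prime factors of cell `j` -/
noncomputable def c1 (N j : ℕ) : Finset ℕ :=
  (Ico (gr N j) (gr N (j + 1))).filter (fun p => p.Prime ∧ (p : ℝ) < (N : ℝ) ^ (1 / 3 : ℝ))

open Classical in
/-- the products of the other two prime factors, cell `j` -/
noncomputable def c2 (N j : ℕ) : Finset ℕ :=
  (Icc 1 (N / gr N j)).filter (fun c => ∃ p q : ℕ, p.Prime ∧ q.Prime ∧ (N : ℝ) ^ (1 / 3 : ℝ) ≤ p ∧ p ≤ q ∧
    c = p * q)

/-- the switched set: (a cover of) the products `p₁ p₂ p₃ ≤ N` with `N^(1/8) ≤ p₁ < N^(1/3) ≤ p₂ ≤ p₃` -/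
noncomputable def wB (N m : ℕ) : ℝ :=
  ∑ j ∈ range (200 * (Nat.log 2 N + 1)), ((((c1 N j) ×ˢ (c2 N j)).filter (fun v => v.1 * v.2 = m)).card : ℝ)

open Classical in
/-- the moduli of the error terms: level `499/1000`, all prime factors at least `N ^ κ` -/
noncomputable def FC (N : ℕ) (κ : ℝ) : Finset ℕ :=
  (Icc 1 ⌊(N : ℝ) ^ (499 / 1000 : ℝ)⌋₊).filter (fun d => Squarefree d ∧ ∀ p ∈ d.primeFactors, κ ≤ tt N p)

open Classical in
/-- the sifted sum over a residue class -/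
noncomputable def Sq (w : ℕ → ℝ) (Q : ℕ → ℕ → Prop) (N y a d : ℕ) : ℝ :=
  ∑ n ∈ (Icc 1 (2 * N)).filter (fun n => (∀ p ∈ pz y, ¬ p ∣ n ∧ ¬ Q p n) ∧ n ≡ a [MOD d]), w n

open Classical in
/-- the indicator function of the primes up to `N` -/
noncomputable def wA (N n : ℕ) : ℝ := if n.Prime ∧ n ≤ N then 1 else 0

open Classical in
/-- the products of three primes which the weights do not see -/
noncomputable def sw (N m : ℕ) : ℝ := if ∃ p q r : ℕ, p.Prime ∧ q.Prime ∧ r.Prime ∧ (N : ℝ) ^ (1 / 8 : ℝ) ≤ p ∧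
  (p : ℝ) < (N : ℝ) ^ (1 / 3 : ℝ) ∧ (N : ℝ) ^ (1 / 3 : ℝ) ≤ q ∧ q ≤ r ∧ m = p * q * r then 1 else 0

open Classical in
/-- at most two prime factors, all at least `N ^ (1/8)` -/
noncomputable def gC (N m : ℕ) : ℝ := if 1 < m ∧ m.primeFactorsList.length ≤ 2 ∧
  ∀ q ∈ m.primeFactors, (N : ℝ) ^ (1 / 8 : ℝ) ≤ q then 1 else 0

end Pool.Agent.J4.H38.CH
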