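import Mathlib
import Pool.Agent.J4.H38.CH.Defs
import Pool.Agent.J4.H38.SR2.Fix5
import Pool.Agent.J4.H38.SR2.Uni3
import Pool.Agent.J4.H38.SR2.Gold1

/-! Project CH, piece AVG: the average density of the tuples `{0, b} ∪ S` relative to the density of `{0, b}`. -/

set_option autoImplicit false

namespace Pool.Agent.J4.H38.CH

open Finset Filter
open Pool.Agent.Y822
open Pool.Agent.J4.H38.SR
open Pool.Agent.J4.H38.SR2
open Pool.Agent.H387R2.Uni (nuT Adm locT CT CT_nonneg)
open Pool.Agent.H373R2.T7 (pz Vz mem_pz)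

namespace Avg

/-- the density of a tuple containing `T0`, relative to the density of `T0` -/
lemma VT_rel (y m : ℕ) (T0 S : Finset ℕ) (hdis : Disjoint T0 S) (hS : S.card ≤ m) :
    VT y (T0 ∪ S) ≤ VT y T0 * Vz y ^ S.card *
      ∏ q ∈ (T0 ∪ S).offDiag \ T0.offDiag, gy y (2 ^ (m + 1)) (dd q) := by
  classical
  obtain ⟨O, hO⟩ : ∃ O, O = (T0 ∪ S).offDiag \ T0.offDiag := ⟨_, rfl⟩
  rw [← hO]
  have e1 : ∏ q ∈ O, gy y (2 ^ (m + 1)) (dd q) =
      ∏ p ∈ pz y, ∏ q ∈ O, (if p ∣ dd q then 1 + (2 : ℝ) ^ (m + 1) / (p : ℝ) else 1) := by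
    rw [Finset.prod_comm]
    refine prod_congr rfl fun q _ => ?_
    unfold gy
    rw [prod_filter]
  rw [e1]
  unfold VT Vz
  rw [pz_eq, ← prod_pow, ← prod_mul_distrib, ← prod_mul_distrib]
  have hνp : ∀ (T : Finset ℕ) (p : ℕ), 0 < p → (nuT T p : ℝ) ≤ p := by
    intro T p hp
    rw [← fT_eq T hp]
    exact_mod_cast fT_le_p T p
  refine prod_le_prod (fun p hp => ?_) fun p hp => ?_
  · have hpp := (mem_pz.1 hp).2.pos
    rw [fT_eq _ hpp, sub_nonneg]
    exact div_le_one_of_le₀ (hνp _ p hpp) (Nat.cast_nonneg _)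
  · have hpp := (mem_pz.1 hp).2.pos
    have hp2 : (2 : ℝ) ≤ p := by exact_mod_cast (mem_pz.1 hp).2.two_le
    have hp0 : (0 : ℝ) < p := by linarith
    rw [fT_eq _ hpp, fT_eq _ hpp]
    have ht : 0 < 1 / (p : ℝ) := by positivity
    have ht2 : 1 / (p : ℝ) ≤ 1 / 2 := one_div_le_one_div_of_le (by norm_num) hp2
    have hV0 : 0 ≤ 1 - (nuT T0 p : ℝ) / p := by
      rw [sub_nonneg]
      exact div_le_one_of_le₀ (hνp _ p hpp) (Nat.cast_nonneg _)
    by_cases hbad : ∀ q ∈ O, ¬ p ∣ dd q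
    · have e2 : ∏ q ∈ O, (if p ∣ dd q then 1 + (2 : ℝ) ^ (m + 1) / (p : ℝ) else 1) = 1 :=
        prod_eq_one fun q hq => by rw [if_neg (hbad q hq)]
      rw [e2, mul_one]
      have h1 : nuT (T0 ∪ S) p = nuT T0 p + S.card := by
        unfold nuT
        rw [image_union, card_union_of_disjoint]
        · congr 1
          refine card_image_of_injOn fun a ha b hb h => ?_
          by_contra hne
          refine hbad (a, b) ?_ (dvd_dd h)
          rw [hO, Finset.mem_sdiff, mem_offDiag, mem_offDiag]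
          refine ⟨⟨mem_union_right _ ha, mem_union_right _ hb, hne⟩, fun h' => ?_⟩
          exact (disjoint_left.1 hdis) h'.1 ha
        · rw [disjoint_left]
          intro x hx hx'
          obtain ⟨a, ha, h2⟩ := mem_image.1 hx
          obtain ⟨b, hb, h3⟩ := mem_image.1 hx'
          have hne : a ≠ b := fun h' => (disjoint_left.1 hdis) ha (h' ▸ hb)
          refine hbad (a, b) ?_ (dvd_dd (h2.trans h3.symm))
          rw [hO, Finset.mem_sdiff, mem_offDiag, mem_offDiag]
          refine ⟨⟨mem_union_left _ ha, mem_union_right _ hb, hne⟩, fun h' => ?_⟩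
          exact (disjoint_left.1 hdis) h'.2.1 hb
      rw [h1]
      have h2 := one_add_mul_le_pow (a := -(1 / (p : ℝ))) (by linarith) S.card
      have h3 : 1 - ((nuT T0 p + S.card : ℕ) : ℝ) / p ≤
          (1 - (nuT T0 p : ℝ) / p) * (1 + S.card * (-(1 / (p : ℝ)))) := by
        have h4 : 0 ≤ (nuT T0 p : ℝ) / p * (S.card / p) := by positivity
        push_cast
        have h5 : (1 - (nuT T0 p : ℝ) / p) * (1 + S.card * (-(1 / (p : ℝ)))) =
            1 - ((nuT T0 p : ℝ) + S.card) / p + (nuT T0 p : ℝ) / p * (S.card / p) := by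
          field_simp
          ring
        rw [h5]
        linarith
      refine h3.trans (mul_le_mul_of_nonneg_left ?_ hV0)
      have h6 : (1 + -(1 / (p : ℝ))) = 1 - 1 / (p : ℝ) := by ring
      rw [h6] at h2
      exact h2
    · push Not at hbad
      obtain ⟨q, hq, hpq⟩ := hbad
      have e2 : 1 + (2 : ℝ) ^ (m + 1) / (p : ℝ) ≤
          ∏ q ∈ O, (if p ∣ dd q then 1 + (2 : ℝ) ^ (m + 1) / (p : ℝ) else 1) := by
        have h5 : (if p ∣ dd q then 1 + (2 : ℝ) ^ (m + 1) / (p : ℝ) else 1) =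
            1 + (2 : ℝ) ^ (m + 1) / (p : ℝ) := if_pos hpq
        rw [← mul_prod_erase O _ hq, h5]
        refine le_mul_of_one_le_right (by positivity) ?_
        have h6 : ∀ x ∈ O.erase q,
            (1 : ℝ) ≤ (if p ∣ dd x then 1 + (2 : ℝ) ^ (m + 1) / (p : ℝ) else 1) := by
          intro x _
          split_ifs
          · have : 0 ≤ (2 : ℝ) ^ (m + 1) / (p : ℝ) := by positivity
            linarith
          · exact le_rfl
        calc (1 : ℝ) = ∏ _x ∈ O.erase q, (1 : ℝ) := by rw [prod_const_one]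
          _ ≤ _ := prod_le_prod (fun _ _ => zero_le_one) h6
      have e3 : 1 ≤ (1 - 1 / (p : ℝ)) ^ S.card * (1 + (2 : ℝ) ^ (m + 1) / (p : ℝ)) := by
        have h1 : 1 ≤ ((1 - 1 / (p : ℝ)) * (1 + 2 / (p : ℝ))) ^ S.card := by
          refine one_le_pow₀ ?_
          have : 2 / (p : ℝ) = 2 * (1 / p) := by ring
          rw [this]
          nlinarith
        have h2 : (1 + 2 / (p : ℝ)) ^ S.card ≤ 1 + (2 : ℝ) ^ (m + 1) / (p : ℝ) := by
          have h3 := Pool.Agent.TH891.SG.pow_convex S.card (C := 1) (by norm_num) (u := 2 / (p : ℝ))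
            (by positivity) (by rw [div_le_one hp0]; exact hp2)
          rw [one_mul] at h3
          refine h3.trans ?_
          have h4 : ((1 : ℝ) + 1) ^ S.card ≤ 2 ^ m := by
            rw [one_add_one_eq_two]
            exact pow_le_pow_right₀ (by norm_num) hS
          have h5 : (2 : ℝ) ^ (m + 1) / (p : ℝ) = 2 ^ m * (2 / p) := by rw [pow_succ]; ring
          rw [h5]
          have := mul_le_mul_of_nonneg_right h4 (by positivity : 0 ≤ 2 / (p : ℝ))
          linarith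
        rw [mul_pow] at h1
        exact h1.trans (mul_le_mul_of_nonneg_left h2 (pow_nonneg (by linarith) _))
      have e4 : 1 - (nuT (T0 ∪ S) p : ℝ) / p ≤ 1 - (nuT T0 p : ℝ) / p := by
        have h7 : nuT T0 p ≤ nuT (T0 ∪ S) p := by
          unfold nuT
          exact card_le_card (image_subset_image subset_union_left)
        have h8 : (nuT T0 p : ℝ) ≤ nuT (T0 ∪ S) p := by exact_mod_cast h7
        have := div_le_div_of_nonneg_right h8 hp0.le
        linarith
      have e5 : 1 ≤ (1 - 1 / (p : ℝ)) ^ S.card *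
          ∏ q ∈ O, (if p ∣ dd q then 1 + (2 : ℝ) ^ (m + 1) / (p : ℝ) else 1) :=
        e3.trans (mul_le_mul_of_nonneg_left e2 (pow_nonneg (by linarith) _))
      refine e4.trans ?_
      rw [mul_assoc]
      exact le_mul_of_one_le_right hV0 e5

/-- **the average density of the tuples containing a fixed set**, relative to the density of the fixed set -/
theorem avgT' (k : ℕ) {K : ℝ} (hK : 0 ≤ K) {y H : ℕ} {A T0 : Finset ℕ} (hAH : A.card ≤ H)
    (h2 : ∑ q ∈ A.offDiag, gy y (CKT k T0.card) (dd q) ≤ K * (H : ℝ) ^ 2)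
    (h1 : ∀ t ∈ T0, ∑ a ∈ A, gy y (CKT k T0.card) (dd (t, a)) ≤ K * H)
    (j : ℕ) (hj : j ≤ k + 2) (hdis : Disjoint T0 A) :
    ∑ S ∈ A.powersetCard j, VT y (T0 ∪ S) ≤
      VT y T0 * ((1 + (1 + 2 * T0.card) * K) * (Vz y ^ j * (H : ℝ) ^ j)) := by
  classical
  have hVz := (Vz_pos' y).le
  have hVT0 := VT_nonneg y T0
  have hH0 : (0 : ℝ) ≤ H := Nat.cast_nonneg _
  have hA : (A.card : ℝ) ≤ H := by exact_mod_cast hAH
  obtain ⟨t0, ht0⟩ : ∃ t0, t0 = T0.card := ⟨_, rfl⟩
  rw [← ht0] at h2 h1 ⊢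
  obtain ⟨C, hC⟩ : ∃ C : ℝ, C = (CKT k t0 : ℕ) := ⟨_, rfl⟩
  rw [← hC] at h2 h1
  have hC0 : 0 ≤ C := by rw [hC]; exact Nat.cast_nonneg _
  have hC1 : (0 : ℝ) ≤ 2 ^ (k + 2 + t0 + 1) := by positivity
  have hg0 : ∀ q : ℕ × ℕ, 0 ≤ gy y C (dd q) := fun q => gy_nonneg hC0 _
  have g1 : ∀ S ∈ A.powersetCard j, VT y (T0 ∪ S) ≤ VT y T0 * Vz y ^ j *
      (1 + ∑ q ∈ S.offDiag, gy y C (dd q) +
        2 * ∑ t ∈ T0, ∑ a ∈ S, gy y C (dd (t, a))) := by
    intro S hS
    rw [mem_powersetCard] at hS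
    have hdS : Disjoint T0 S := disjoint_of_subset_right hS.1 hdis
    have hc : (T0 ∪ S).card = j + t0 := by
      rw [card_union_of_disjoint hdS, hS.2, ← ht0]; ring
    have h := VT_rel y (k + 2 + t0) T0 S hdS (by omega)
    rw [hS.2] at h
    refine h.trans (mul_le_mul_of_nonneg_left ?_ (by positivity))
    obtain ⟨O, hO⟩ : ∃ O, O = (T0 ∪ S).offDiag \ T0.offDiag := ⟨_, rfl⟩
    rw [← hO]
    have hsub : O ⊆ (S.offDiag ∪ (T0 ×ˢ S)) ∪ (S ×ˢ T0) := by
      intro q hq
      rw [hO, Finset.mem_sdiff, mem_offDiag, mem_offDiag, mem_union, mem_union] at hq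
      rw [mem_union, mem_union, mem_offDiag, mem_product, mem_product]
      tauto
    have h5 : ∑ q ∈ O, gy y C (dd q) ≤
        ∑ q ∈ S.offDiag, gy y C (dd q) +
        2 * ∑ t ∈ T0, ∑ a ∈ S, gy y C (dd (t, a)) := by
      refine (sum_le_sum_of_subset_of_nonneg hsub fun q _ _ => hg0 q).trans ?_
      have s1 := sum_union_le' (S.offDiag ∪ (T0 ×ˢ S)) (S ×ˢ T0) (fun q : ℕ × ℕ => gy y C (dd q)) hg0
      have s2 := sum_union_le' S.offDiag (T0 ×ˢ S) (fun q : ℕ × ℕ => gy y C (dd q)) hg0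
      have s4 : ∑ q ∈ T0 ×ˢ S, gy y C (dd q) = ∑ t ∈ T0, ∑ a ∈ S, gy y C (dd (t, a)) := sum_product _ _ _
      have s5 : ∑ q ∈ S ×ˢ T0, gy y C (dd q) = ∑ t ∈ T0, ∑ a ∈ S, gy y C (dd (t, a)) := by
        rw [sum_product_right]
        refine sum_congr rfl fun t _ => sum_congr rfl fun a _ => ?_
        rw [dd_comm]
      simp only [s4] at s2
      simp only [s5] at s1
      linarith
    have hcard : O.card ≤ (k + 2 + t0) * (k + 2 + t0) := by
      have h6 : O.card ≤ (T0 ∪ S).offDiag.card := by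
        rw [hO]; exact card_le_card sdiff_subset
      refine h6.trans ?_
      rw [offDiag_card, hc]
      refine (Nat.sub_le _ _).trans (Nat.mul_le_mul ?_ ?_) <;> omega
    have h4 : ∀ q ∈ O, gy y (2 ^ (k + 2 + t0 + 1)) (dd q) ^ O.card ≤ gy y C (dd q) := by
      intro q _
      refine (gy_pow hC1 _ _).trans (gy_mono (by positivity) ?_ _)
      rw [hC]
      unfold CKT
      push_cast
      exact pow_le_pow_right₀ (by linarith) hcard
    rcases O.eq_empty_or_nonempty with he | hne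
    · rw [he, prod_empty]
      have s2 : 0 ≤ ∑ q ∈ S.offDiag, gy y C (dd q) := sum_nonneg fun q _ => hg0 q
      have s3 : 0 ≤ ∑ t ∈ T0, ∑ a ∈ S, gy y C (dd (t, a)) := sum_nonneg fun t _ => sum_nonneg fun a _ => hg0 _
      linarith
    · have h3 := Pool.Agent.TH891.SG.prod_le_sum_pow O hne
        (fun q => gy y (2 ^ (k + 2 + t0 + 1)) (dd q)) (fun q _ => gy_nonneg hC1 _)
      have h6 := h3.trans (sum_le_sum h4)
      linarith
  refine (sum_le_sum g1).trans ?_
  rw [← mul_sum, sum_add_distrib, sum_add_distrib, sum_const, nsmul_eq_mul, mul_one]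
  have hcA : ((A.powersetCard j).card : ℝ) ≤ (H : ℝ) ^ j := card_pow_le2 hAH j
  have h5 : ∑ S ∈ A.powersetCard j, ∑ q ∈ S.offDiag, gy y C (dd q) ≤ K * (H : ℝ) ^ j := by
    rcases j with _ | _ | j
    · rw [powersetCard_zero, sum_singleton]
      simp [hK]
    · have : ∀ S ∈ A.powersetCard (0 + 1), ∑ q ∈ S.offDiag, gy y C (dd q) = 0 := by
        intro S hS
        rw [mem_powersetCard, zero_add, card_eq_one] at hS
        obtain ⟨_, a, rfl⟩ := hS
        refine sum_eq_zero fun q hq => ?_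
        rw [mem_offDiag, mem_singleton, mem_singleton] at hq
        exact absurd (hq.1.trans hq.2.1.symm) hq.2.2
      rw [sum_congr rfl this, sum_const_zero]
      positivity
    · refine (sum_through A (j + 1) (fun q => gy y C (dd q)) hg0).trans ?_
      rw [Nat.add_sub_cancel]
      calc (A.card : ℝ) ^ j * ∑ q ∈ A.offDiag, gy y C (dd q) ≤ (H : ℝ) ^ j * (K * (H : ℝ) ^ 2) :=
            mul_le_mul (pow_le_pow_left₀ (Nat.cast_nonneg _) hA j) h2
              (sum_nonneg fun q _ => hg0 q) (by positivity)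
        _ = _ := by ring
  have h6 : ∑ S ∈ A.powersetCard j, 2 * ∑ t ∈ T0, ∑ a ∈ S, gy y C (dd (t, a)) ≤ 2 * (t0 * (K * (H : ℝ) ^ j)) := by
    rw [← mul_sum, sum_comm]
    refine mul_le_mul_of_nonneg_left ?_ (by norm_num)
    have h7 : ∀ t ∈ T0, ∑ S ∈ A.powersetCard j, ∑ a ∈ S, gy y C (dd (t, a)) ≤ K * (H : ℝ) ^ j := by
      intro t ht
      rcases j with _ | j
      · rw [powersetCard_zero, sum_singleton, sum_empty]
        positivity
      · refine (sum_through1 A j (fun a => gy y C (dd (t, a))) (fun a => hg0 _)).trans ?_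
        calc (A.card : ℝ) ^ j * ∑ a ∈ A, gy y C (dd (t, a)) ≤ (H : ℝ) ^ j * (K * (H : ℝ)) :=
              mul_le_mul (pow_le_pow_left₀ (Nat.cast_nonneg _) hA j) (h1 t ht)
                (sum_nonneg fun q _ => hg0 _) (by positivity)
          _ = _ := by ring
    refine (sum_le_sum h7).trans (le_of_eq ?_)
    rw [sum_const, nsmul_eq_mul, ← ht0]
  rw [← mul_sum] at h6
  calc _ ≤ VT y T0 * Vz y ^ j * ((1 + (1 + 2 * t0) * K) * (H : ℝ) ^ j) := by
        refine mul_le_mul_of_nonneg_left ?_ (by positivity)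
        rw [← mul_sum]
        linarith
    _ = _ := by ring

/-- the distance of two values -/
lemma dd_natAbs (a b : ℕ) : dd (a, b) = ((b : ℤ) - a).natAbs := by
  unfold dd
  simp only
  rcases le_total a b with h | h
  · rw [max_eq_right h, min_eq_left h]; omega
  · rw [max_eq_left h, min_eq_right h]; omega

/-- the averages over an interval, arbitrary integer base point -/
lemma int_avg {C : ℝ} (hC : 0 ≤ C) : ∃ K : ℝ, 0 ≤ K ∧ ∀ H N y : ℕ, 1 ≤ H → 2 ≤ N → Real.log N ≤ H → H ≤ N →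
    ∀ c : ℤ, -N ≤ c → c ≤ N →
    ∑ m ∈ (Icc 1 H).filter (fun m : ℕ => (m : ℤ) ≠ c), gy y C ((m : ℤ) - c).natAbs ≤ K * H := by
  obtain ⟨K, hK, h⟩ := poly_avg Polynomial.X (by rw [Polynomial.natDegree_X]) hC
  refine ⟨3 * K, by positivity, fun H N y hH hN hlog hHN c hc1 hc2 => ?_⟩
  have h3 : Real.log ((3 * N : ℕ) : ℝ) ≤ ((H + 2 : ℕ) : ℝ) := by
    have hN0 : (0 : ℝ) < N := by exact_mod_cast (by omega : 0 < N)
    push_cast
    rw [Real.log_mul (by norm_num) hN0.ne']
    have h4 : Real.log 3 ≤ 2 := by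
      have := Real.log_le_sub_one_of_pos (by norm_num : (0 : ℝ) < 3)
      linarith
    linarith
  have h5 := h (H + 2) y (3 * N) (by omega) h3 c (fun m hm => by
    rw [Polynomial.eval_X]
    have := (mem_Icc.1 hm).2
    omega)
  have h6 : ∑ m ∈ (Icc 1 H).filter (fun m : ℕ => (m : ℤ) ≠ c), gy y C ((m : ℤ) - c).natAbs ≤
      ∑ m ∈ (Icc 1 (H + 2)).filter (fun m : ℕ => (Polynomial.X : Polynomial ℤ).eval (m : ℤ) ≠ c),
        gy y C ((Polynomial.X : Polynomial ℤ).eval (m : ℤ) - c).natAbs := by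
    simp only [Polynomial.eval_X]
    refine sum_le_sum_of_subset_of_nonneg ?_ fun _ _ _ => gy_nonneg hC _
    intro m hm
    rw [mem_filter, mem_Icc] at hm ⊢
    exact ⟨⟨hm.1.1, by omega⟩, hm.2⟩
  refine h6.trans (h5.trans ?_)
  have hH1 : (1 : ℝ) ≤ H := by exact_mod_cast hH
  push_cast
  nlinarith

end Avg

open Avg in
/-- **AVG**. The average density of the tuples `{0, b} ∪ S` relative to the density of `{0, b}`; `b ≡ -N` modulo all
primes `p ≤ y`. -/
theorem avgRel (k : ℕ) : ∃ Cv : ℝ, 0 < Cv ∧ ∀ᶠ N : ℕ in atTop, ∀ H y b : ℕ, Real.log N ≤ H → H ≤ N → 2 ≤ y →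
    (∀ p ∈ pz y, p ∣ b + N) → H < b → ∀ j ≤ k + 2,
    ∑ S ∈ (Icc 1 H).powersetCard j, VT y ({0, b} ∪ S) ≤ Cv * VT y {0, b} * (Vz y * H) ^ j := by
  classical
  have hC0 : (0 : ℝ) ≤ (CKT k 2 : ℝ) := Nat.cast_nonneg _
  obtain ⟨K, hK, hav⟩ := int_avg hC0
  refine ⟨1 + 5 * K, by positivity, ?_⟩
  filter_upwards [eventually_ge_atTop 3] with N hN H y b hlog hHN hy hb hHb j hj
  have hN3 : (3 : ℝ) ≤ N := by exact_mod_cast hN
  have hlN : 1 ≤ Real.log N := by
    have h1 : Real.exp 1 ≤ N := le_trans (by have := Real.exp_one_lt_d9; linarith) hN3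
    have := Real.log_le_log (Real.exp_pos 1) h1
    rwa [Real.log_exp] at this
  have hH1 : 1 ≤ H := by
    have : (1 : ℝ) ≤ H := by linarith
    exact_mod_cast this
  have hav' : ∀ c : ℤ, -N ≤ c → c ≤ N →
      ∑ m ∈ (Icc 1 H).filter (fun m : ℕ => (m : ℤ) ≠ c), gy y (CKT k 2) ((m : ℤ) - c).natAbs ≤ K * H :=
    fun c h1 h2 => hav H N y hH1 (by omega) hlog hHN c h1 h2
  have hg0 : ∀ q : ℕ × ℕ, 0 ≤ gy y (CKT k 2) (dd q) := fun q => gy_nonneg hC0 _
  have hb0 : b ≠ 0 := by omega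
  have hT0 : ({0, b} : Finset ℕ).card = 2 := card_pair (Ne.symm hb0)
  have hAc : (Icc 1 H).card ≤ H := by rw [Nat.card_Icc, Nat.add_sub_cancel]
  have hdis : Disjoint ({0, b} : Finset ℕ) (Icc 1 H) := by
    rw [disjoint_left]
    intro x hx hx'
    rw [mem_insert, mem_singleton] at hx
    rw [mem_Icc] at hx'
    omega
  have main := avgT' k hK (y := y) (H := H) (A := Icc 1 H) (T0 := {0, b}) hAc (by
    rw [hT0]
    have e1 : ∑ q ∈ (Icc 1 H).offDiag, gy y (CKT k 2) (dd q) =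
        ∑ w ∈ Icc 1 H, ∑ m ∈ (Icc 1 H).filter (fun m : ℕ => (m : ℤ) ≠ (w : ℤ)),
          gy y (CKT k 2) ((m : ℤ) - (w : ℤ)).natAbs := by
      have e3 : (Icc 1 H).offDiag = (Icc 1 H ×ˢ Icc 1 H).filter (fun q => q.2 ≠ q.1) := by
        ext q
        rw [mem_offDiag, mem_filter, mem_product, and_assoc, ne_comm]
      rw [e3, sum_filter, sum_product]
      refine sum_congr rfl fun w _ => ?_
      rw [sum_filter]
      refine sum_congr rfl fun m _ => ?_
      simp only [dd_natAbs, ne_eq, Nat.cast_inj]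
    rw [e1]
    refine (sum_le_sum fun (w : ℕ) hw => hav' (w : ℤ) (by omega)
      (by have := (mem_Icc.1 hw).2; omega)).trans (le_of_eq ?_)
    rw [sum_const, nsmul_eq_mul, Nat.card_Icc, Nat.add_sub_cancel]
    ring) (by
    intro t ht
    rw [hT0]
    rw [mem_insert, mem_singleton] at ht
    rcases ht with rfl | rfl
    · have h1 := hav' 0 (by omega) (by omega)
      refine le_trans (le_of_eq ?_) h1
      have e4 : (Icc 1 H).filter (fun m : ℕ => (m : ℤ) ≠ 0) = Icc 1 H := by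
        refine filter_true_of_mem fun m hm => ?_
        have := (mem_Icc.1 hm).1
        omega
      rw [e4]
      refine sum_congr rfl fun m _ => ?_
      rw [dd_natAbs, Nat.cast_zero]
    · have h1 := hav' (-N) (by omega) (by omega)
      refine le_trans (le_of_eq ?_) h1
      have e4 : (Icc 1 H).filter (fun m : ℕ => (m : ℤ) ≠ -N) = Icc 1 H := by
        refine filter_true_of_mem fun m hm => ?_
        have := (mem_Icc.1 hm).1
        omega
      rw [e4]
      refine sum_congr rfl fun m hm => ?_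
      have hmb : m ≤ t := by have := (mem_Icc.1 hm).2; omega
      unfold gy
      refine prod_congr ?_ fun _ _ => rfl
      refine filter_congr fun p hp => ?_
      have h2 := hb p hp
      have h3 : dd (t, m) = t - m := by
        unfold dd
        simp only
        rw [max_eq_left hmb, min_eq_right hmb]
      have h4 : ((m : ℤ) - (-N : ℤ)).natAbs = m + N := by omega
      rw [h3, h4]
      have h5 : t + N = (t - m) + (m + N) := by omega
      rw [h5] at h2
      constructor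
      · intro h6
        exact (Nat.dvd_add_right h6).1 h2
      · intro h6
        exact (Nat.dvd_add_left h6).1 h2) j hj hdis
  rw [hT0] at main
  refine main.trans (le_of_eq ?_)
  push_cast
  rw [mul_pow]
  ring

end Pool.Agent.J4.H38.CH
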