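import Mathlib
import Pool.Agent.J4.H38.CH.Defs
import Pool.Agent.J4.H38.SR2.Gold1

/-! Project CH, piece LOW: the singular series of the whole pattern against that of `{0, b}`. -/

set_option autoImplicit false

namespace Pool.Agent.J4.H38.CH

open Finset Filter
open Pool.Agent.Y822
open Pool.Agent.J4.H38.SR
open Pool.Agent.J4.H38.SR2
open Pool.Agent.H387R2.Uni (nuT Adm locT CT CT_nonneg)
open Pool.Agent.H373R2.T7 (pz Vz mem_pz)

namespace Low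

lemma pow_le2 {x : ℝ} (h0 : 0 ≤ x) (h1 : x ≤ 1) (m : ℕ) : (1 - x) ^ m ≤ 1 - m * x + (m : ℝ) ^ 2 * x ^ 2 := by
  induction m with
  | zero => simp
  | succ m ih =>
    have h2 := mul_le_mul_of_nonneg_right ih (by linarith : 0 ≤ 1 - x)
    rw [← pow_succ] at h2
    refine h2.trans ?_
    push_cast
    have hm : (0 : ℝ) ≤ m := Nat.cast_nonneg m
    nlinarith [mul_nonneg hm (mul_nonneg h0 h0), mul_nonneg (mul_nonneg hm hm) (mul_nonneg h0 (mul_nonneg h0 h0)),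
      mul_nonneg h0 h0]

lemma nuT_union_le (X Y : Finset ℕ) (p : ℕ) : nuT (X ∪ Y) p ≤ nuT X p + Y.card := by
  classical
  unfold nuT
  rw [image_union]
  exact (card_union_le _ _).trans (Nat.add_le_add_left card_image_le _)

/-- the local inequality for the large primes -/
lemma loc_large {m ν0 : ℕ} {x : ℝ} (hν : ν0 ≤ 2) (hx0 : 0 < x) (hx : 4 * ((m : ℝ) + 2) ^ 2 * x ≤ 1) :
    (1 - 2 * ((m : ℝ) + 2) ^ 2 * x ^ 2) * (1 - ν0 * x) * (1 - x) ^ m ≤ 1 - (ν0 + m) * x := by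
  have hm : (0 : ℝ) ≤ m := Nat.cast_nonneg m
  have hν0 : (0 : ℝ) ≤ ν0 := Nat.cast_nonneg _
  have hν2 : (ν0 : ℝ) ≤ 2 := by exact_mod_cast hν
  have hx1 : ((m : ℝ) + 2) * x ≤ 1 / 8 := by
    have h : 8 * (((m : ℝ) + 2) * x) ≤ 4 * ((m : ℝ) + 2) ^ 2 * x := by nlinarith [mul_nonneg hm hx0.le]
    linarith
  have hx2 : x ≤ 1 / 16 := by nlinarith [mul_nonneg hm hx0.le]
  have h1 := pow_le2 hx0.le (by linarith : x ≤ 1) m
  have h2 : 0 ≤ 1 - (ν0 : ℝ) * x := by nlinarith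
  have h3 : 0 ≤ 1 - 2 * ((m : ℝ) + 2) ^ 2 * x ^ 2 := by nlinarith [mul_nonneg (sq_nonneg ((m : ℝ) + 2)) hx0.le]
  have h4 : (1 - (ν0 : ℝ) * x) * (1 - x) ^ m ≤ 1 - (ν0 + m) * x + ((m : ℝ) ^ 2 + 2 * m) * x ^ 2 := by
    refine (mul_le_mul_of_nonneg_left h1 h2).trans ?_
    have e1 : 0 ≤ (ν0 : ℝ) * (m : ℝ) ^ 2 * x ^ 3 := by positivity
    have e2 : 0 ≤ (2 - (ν0 : ℝ)) * (m * x ^ 2) := mul_nonneg (by linarith) (by positivity)
    nlinarith
  have h5 : (1 - 2 * ((m : ℝ) + 2) ^ 2 * x ^ 2) * (1 - (ν0 + m) * x + ((m : ℝ) ^ 2 + 2 * m) * x ^ 2) ≤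
      1 - (ν0 + m) * x := by
    have e3 : (3 / 4 : ℝ) ≤ 1 - (ν0 + m) * x := by nlinarith
    have e4 : 0 ≤ 2 * ((m : ℝ) + 2) ^ 2 * x ^ 2 * (((m : ℝ) ^ 2 + 2 * m) * x ^ 2) := by positivity
    have e5 : ((m : ℝ) ^ 2 + 2 * m) * x ^ 2 ≤ 2 * ((m : ℝ) + 2) ^ 2 * x ^ 2 * (3 / 4) := by
      have : 0 ≤ x ^ 2 := sq_nonneg x
      nlinarith
    have e6 : 2 * ((m : ℝ) + 2) ^ 2 * x ^ 2 * (3 / 4) ≤ 2 * ((m : ℝ) + 2) ^ 2 * x ^ 2 * (1 - (ν0 + m) * x) :=
      mul_le_mul_of_nonneg_left e3 (by positivity)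
    nlinarith
  calc _ = (1 - 2 * ((m : ℝ) + 2) ^ 2 * x ^ 2) * ((1 - ν0 * x) * (1 - x) ^ m) := by ring
    _ ≤ _ := (mul_le_mul_of_nonneg_left h4 h3).trans h5

end Low

open Low in
/-- **LOW**. The singular series of the whole pattern against that of `{0, b}` (`≡ {0, -N}`). -/
theorem pt_low (m : ℕ) : ∃ cp : ℝ, 0 < cp ∧ ∀ (y N b : ℕ) (D : Finset ℕ), D.card = m → 1 ≤ N → 0 ∉ D →
    (∀ p ∈ pz y, p ∣ b + N) → Adm (pat (sh N (insert 0 D))) →
    cp * VT y {0, b} ≤ PT (pat (sh N (insert 0 D))) y * Vz y ^ 2 := by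
  classical
  obtain ⟨q0, hq0⟩ : ∃ q0 : ℕ, q0 = 4 * (m + 2) ^ 2 := ⟨_, rfl⟩
  have hq0r : (q0 : ℝ) = 4 * ((m : ℝ) + 2) ^ 2 := by rw [hq0]; push_cast; ring
  have hq16 : 16 ≤ q0 := by
    have := Nat.pow_le_pow_left (by omega : 2 ≤ m + 2) 2
    omega
  have hq1 : (1 : ℝ) ≤ q0 := by exact_mod_cast (by omega : 1 ≤ q0)
  have hq00 : (0 : ℝ) < q0 := by linarith
  refine ⟨(1 / (q0 : ℝ)) ^ q0 * (1 / 2), by positivity, fun y N b D hD hN h0 hb hA => ?_⟩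
  obtain ⟨T, hT⟩ : ∃ T, T = pat (sh N (insert 0 D)) := ⟨_, rfl⟩
  rw [← hT] at hA ⊢
  have hTc : T.card = m + 2 := by
    rw [hT, card_pat (zero_notMem_sh hN _), card_sh, card_insert_of_notMem h0, hD]
  have hνT : ∀ p ∈ pz y, nuT T p ≤ nuT {0, b} p + m := by
    intro p hp
    have hpp := (mem_pz.1 hp).2.pos
    rw [hT, ← nuT_base hpp (hb p hp)]
    have e : ({b} ∪ insert 0 D : Finset ℕ) = {0, b} ∪ D := by
      ext z
      simp only [mem_union, mem_singleton, mem_insert]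
      tauto
    rw [e, ← hD]
    exact nuT_union_le _ _ _
  have hν2 : ∀ p, nuT {0, b} p ≤ 2 := fun p => (nuT_le_card _ p).trans card_le_two
  -- the local factors
  obtain ⟨cf, hcf⟩ : ∃ cf : ℕ → ℝ, ∀ p, cf p = if p ≤ q0 then 1 / (q0 : ℝ) else
      1 - 2 * ((m : ℝ) + 2) ^ 2 * (1 / (p : ℝ) ^ 2) := ⟨_, fun _ => rfl⟩
  have hlarge : ∀ p : ℕ, ¬ p ≤ q0 → 4 * ((m : ℝ) + 2) ^ 2 * (1 / (p : ℝ)) ≤ 1 := by
    intro p hp
    have h1 : (q0 : ℝ) ≤ p := by exact_mod_cast (not_le.1 hp).le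
    rw [← hq0r, mul_one_div]
    exact div_le_one_of_le₀ h1 (Nat.cast_nonneg _)
  have hcf0 : ∀ p ∈ pz y, 0 ≤ cf p := by
    intro p hp
    rw [hcf]
    split_ifs with h
    · positivity
    · have h1 := hlarge p h
      have hp2 : (2 : ℝ) ≤ p := by exact_mod_cast (mem_pz.1 hp).2.two_le
      have ht : 0 < 1 / (p : ℝ) := by positivity
      have ht2 : 1 / (p : ℝ) ≤ 1 / 2 := one_div_le_one_div_of_le (by norm_num) hp2
      have e : 1 / (p : ℝ) ^ 2 = 1 / p * (1 / p) := by rw [sq]; field_simp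
      rw [e]
      nlinarith
  have hloc : ∀ p ∈ pz y, cf p * (1 - (nuT {0, b} p : ℝ) / p) ≤ locT T p * (1 - 1 / (p : ℝ)) ^ 2 := by
    intro p hp
    have hpp := (mem_pz.1 hp).2
    have hp2 : (2 : ℝ) ≤ p := by exact_mod_cast hpp.two_le
    have hp0 : (0 : ℝ) < p := by linarith
    have ht : 0 < 1 / (p : ℝ) := by positivity
    have ht2 : 1 / (p : ℝ) ≤ 1 / 2 := one_div_le_one_div_of_le (by norm_num) hp2
    have h1 : 0 < 1 - 1 / (p : ℝ) := by linarith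
    have e1 : locT T p * (1 - 1 / (p : ℝ)) ^ 2 = (1 - (nuT T p : ℝ) / p) / (1 - 1 / (p : ℝ)) ^ m := by
      unfold locT
      rw [hTc, pow_add]
      have h2 : (1 - 1 / (p : ℝ)) ^ m ≠ 0 := (pow_pos h1 _).ne'
      have h3 : (1 - 1 / (p : ℝ)) ^ 2 ≠ 0 := (pow_pos h1 _).ne'
      rw [div_mul_eq_mul_div, mul_div_mul_right _ _ h3]
    rw [e1, le_div_iff₀ (pow_pos h1 _), hcf]
    have hν00 : (0 : ℝ) ≤ nuT {0, b} p := Nat.cast_nonneg _
    have hνp : (nuT {0, b} p : ℝ) ≤ p := by exact_mod_cast nuT_le_self {0, b} p hpp.pos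
    have hV0 : 0 ≤ 1 - (nuT {0, b} p : ℝ) / p := by
      rw [sub_nonneg]
      exact div_le_one_of_le₀ hνp hp0.le
    have hV1 : 1 - (nuT {0, b} p : ℝ) / p ≤ 1 := by
      have : 0 ≤ (nuT {0, b} p : ℝ) / p := by positivity
      linarith
    split_ifs with h
    · have h2 : (nuT T p : ℝ) + 1 ≤ p := by exact_mod_cast hA p hpp
      have h3 : 1 / (p : ℝ) ≤ 1 - (nuT T p : ℝ) / p := by
        rw [div_le_iff₀ hp0, sub_mul, div_mul_cancel₀ _ hp0.ne']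
        linarith
      have h4 : 1 / (q0 : ℝ) ≤ 1 / p := one_div_le_one_div_of_le hp0 (by exact_mod_cast h)
      have h5 : (1 - 1 / (p : ℝ)) ^ m ≤ 1 := pow_le_one₀ h1.le (by linarith)
      calc _ ≤ 1 / (q0 : ℝ) * 1 * 1 := by
            refine mul_le_mul (mul_le_mul_of_nonneg_left hV1 (by positivity)) h5 (pow_nonneg h1.le _) (by positivity)
        _ ≤ _ := by linarith
    · have h2 := loc_large (hν2 p) ht (hlarge p h)
      have h3 : (nuT T p : ℝ) ≤ nuT {0, b} p + m := by exact_mod_cast hνT p hp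
      have e2 : (1 : ℝ) / (p : ℝ) ^ 2 = (1 / (p : ℝ)) ^ 2 := by rw [one_div_pow]
      have e3 : (nuT {0, b} p : ℝ) / p = nuT {0, b} p * (1 / (p : ℝ)) := by ring
      have e4 : (nuT T p : ℝ) / p = nuT T p * (1 / (p : ℝ)) := by ring
      rw [e2, e3, e4]
      refine h2.trans ?_
      have := mul_le_mul_of_nonneg_right h3 ht.le
      linarith
  -- the product of the constants
  have hprod : (1 / (q0 : ℝ)) ^ q0 * (1 / 2) ≤ ∏ p ∈ pz y, cf p := by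
    rw [← prod_filter_mul_prod_filter_not (pz y) (fun p => p ≤ q0)]
    have h1 : (1 / (q0 : ℝ)) ^ q0 ≤ ∏ p ∈ (pz y).filter (fun p => p ≤ q0), cf p := by
      have e : ∏ p ∈ (pz y).filter (fun p => p ≤ q0), cf p = (1 / (q0 : ℝ)) ^ ((pz y).filter (fun p => p ≤ q0)).card := by
        rw [← prod_const]
        refine prod_congr rfl fun p hp => ?_
        rw [hcf, if_pos (mem_filter.1 hp).2]
      rw [e]
      refine pow_le_pow_of_le_one (by positivity) (by rw [div_le_one hq00]; exact hq1) ?_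
      have h2 : (pz y).filter (fun p => p ≤ q0) ⊆ Icc 1 q0 := by
        intro p hp
        rw [mem_filter, mem_pz] at hp
        rw [mem_Icc]
        exact ⟨hp.1.2.one_lt.le, hp.2⟩
      have := card_le_card h2
      rwa [Nat.card_Icc, Nat.add_sub_cancel] at this
    have h2 : (1 / 2 : ℝ) ≤ ∏ p ∈ (pz y).filter (fun p => ¬ p ≤ q0), cf p := by
      have e : ∏ p ∈ (pz y).filter (fun p => ¬ p ≤ q0), cf p =
          ∏ p ∈ (pz y).filter (fun p => ¬ p ≤ q0), (1 - 2 * ((m : ℝ) + 2) ^ 2 * (1 / (p : ℝ) ^ 2)) := by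
        refine prod_congr rfl fun p hp => ?_
        rw [hcf, if_neg (mem_filter.1 hp).2]
      rw [e]
      have h3 := one_sub_sum_le_prod ((pz y).filter (fun p => ¬ p ≤ q0))
        (fun p => 2 * ((m : ℝ) + 2) ^ 2 * (1 / (p : ℝ) ^ 2)) (fun p _ => by positivity) (fun p hp => by
          have h4 := hcf0 p (mem_filter.1 hp).1
          rw [hcf, if_neg (mem_filter.1 hp).2] at h4
          linarith)
      refine le_trans ?_ h3
      rw [← mul_sum]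
      have h5 := inv_sq_gt (y := q0) (by omega) ((pz y).filter (fun p => ¬ p ≤ q0))
        (fun p hp => not_le.1 (mem_filter.1 hp).2)
      have h6 : 2 * ((m : ℝ) + 2) ^ 2 * ∑ p ∈ (pz y).filter (fun p => ¬ p ≤ q0), 1 / (p : ℝ) ^ 2 ≤
          2 * ((m : ℝ) + 2) ^ 2 * (1 / q0) := mul_le_mul_of_nonneg_left h5 (by positivity)
      have h7 : 2 * ((m : ℝ) + 2) ^ 2 * (1 / (q0 : ℝ)) = 1 / 2 := by
        rw [hq0r]
        have : ((m : ℝ) + 2) ^ 2 ≠ 0 := by positivity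
        field_simp
        norm_num
      linarith
    exact mul_le_mul h1 h2 (by norm_num) (prod_nonneg fun p hp => hcf0 p (mem_filter.1 hp).1)
  have hV : VT y {0, b} = ∏ p ∈ pz y, (1 - (nuT {0, b} p : ℝ) / p) := by
    unfold VT
    rw [pz_eq]
    refine prod_congr rfl fun p hp => ?_
    rw [fT_eq _ (mem_pz.1 hp).2.pos]
  have hR : PT T y * Vz y ^ 2 = ∏ p ∈ pz y, locT T p * (1 - 1 / (p : ℝ)) ^ 2 := by
    unfold PT Vz
    rw [← prod_pow, ← prod_mul_distrib]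
  have hVn : ∀ p ∈ pz y, 0 ≤ 1 - (nuT {0, b} p : ℝ) / p := by
    intro p hp
    rw [sub_nonneg]
    exact div_le_one_of_le₀ (by exact_mod_cast nuT_le_self {0, b} p (mem_pz.1 hp).2.pos) (Nat.cast_nonneg _)
  rw [hR, hV]
  calc _ ≤ (∏ p ∈ pz y, cf p) * ∏ p ∈ pz y, (1 - (nuT {0, b} p : ℝ) / p) :=
        mul_le_mul_of_nonneg_right hprod (prod_nonneg hVn)
    _ = ∏ p ∈ pz y, cf p * (1 - (nuT {0, b} p : ℝ) / p) := by rw [prod_mul_distrib]
    _ ≤ _ := prod_le_prod (fun p hp => mul_nonneg (hcf0 p hp) (hVn p hp)) hloc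

end Pool.Agent.J4.H38.CH
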