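import Mathlib
import Pool.Agent.J4.H38.CH.Defs
import Pool.Agent.J4.H46.CH.Bvb
import Pool.Agent.J4.H54.CH.Bva
import Pool.Agent.J4.H52.CN.Cnt
import Pool.Agent.J4.H31.CH.Siv
import Pool.Agent.J4.H31.CH.Frs
import Pool.Agent.J4.H90.CH.Lvl5
import Pool.Agent.J4.H38.CH.Avg
import Pool.Agent.J4.H38.CH.Low
import Pool.Agent.J4.H23.CH.Swt

/-! Project CH: the proved pieces under common names (the statements that the assembly uses). -/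

set_option autoImplicit false

namespace Pool.Agent.J4.H38.CH

open Finset Filter
open Pool.Agent.W23.DC (tt pr ind)
open Pool.Agent.Y822.F (iu)
open Pool.Agent.J4.H38.SR
open Pool.Agent.J4.H38.SR2
open Pool.Agent.J4.H38.SR3
open Pool.Agent.Y822
open Pool.Agent.H373R2.T7 (pz Vz mem_pz rhoA PerA)
open Pool.Agent.H387R2.Uni (nuT Adm locT CT)

theorem bva : ∀ U : ℕ, ∀ᶠ N : ℕ in atTop, Dist (wA N) (Pool.Agent.H442R2.EHI.lis N) (2 * N)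
    ⌊(N : ℝ) ^ (999 / 2000 : ℝ)⌋₊ (N / Real.log N ^ U) := Pool.Agent.J4.H54.CH.bva

theorem cnt : ∀ᶠ N : ℕ in atTop, ∑ n ∈ Icc 1 (2 * N), wB N n ≤ 379 / 1000 * (N / Real.log N) :=
  Pool.Agent.J4.H52.CN.cnt

theorem sieveC : ∃ A0 : ℝ, 0 < A0 ∧ ∀ κ : ℝ, 0 < κ → κ ≤ 1 / 25 → ∃ N₀ : ℕ, ∀ N : ℕ, N₀ ≤ N →
    ∀ (Ω : Finset ℕ) (w : ℕ → ℝ) (m : ℕ → ℕ) (X : ℝ), (∀ n ∈ Ω, 0 ≤ w n) → 0 ≤ X →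
    (385 / 1000 * (A0 * κ * X) - 2 * ∑ d ∈ FC N κ, |(∑ n ∈ Ω, w n * ind (m n) d) - X * (1 / (d : ℝ))| ≤
      ∑ n ∈ Ω, w n * Wk N κ (m n)) ∧
    (∑ n ∈ Ω, w n * iu N κ (1 / 6) (m n) ≤ 2005 / 1000 * (A0 * κ * X) +
      ∑ d ∈ FC N κ, |(∑ n ∈ Ω, w n * ind (m n) d) - X * (1 / (d : ℝ))|) := Pool.Agent.J4.H31.CH.sieveC

theorem lvl (c : ℕ) (hc : 1 ≤ c) (c₁ : ℝ) (hc₁ : 0 < c₁) (hc₂ : c₁ ≤ 1) : ∃ κ₀ : ℝ, 0 < κ₀ ∧ ∀ κ : ℝ, 0 < κ → κ ≤ κ₀ →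
    ∀ U : ℕ, ∃ U' : ℕ, ∀ᶠ N : ℕ in atTop, ∀ y : ℕ, (y : ℝ) < (N : ℝ) ^ κ → (N : ℝ) ^ κ ≤ y + 1 →
    ∀ (w : ℕ → ℝ) (W0 : ℝ), (∀ n, 0 ≤ w n ∧ w n ≤ 1) → (∀ n, y < n → w n ≠ 0 → ∀ p ∈ pz y, ¬ p ∣ n) →
    0 ≤ W0 → W0 ≤ 2 * N →
    Dist w W0 (2 * N) ⌊(N : ℝ) ^ (999 / 2000 : ℝ)⌋₊ (N / Real.log N ^ U') →
    ∀ Q : ℕ → ℕ → Prop, PerA Q c → ∀ a : ℕ, 1 ≤ a → a ≤ N →
    ∀ r : ℕ → ℕ, (∀ d p : ℕ, p.Prime → p ∣ d → p ∣ r d → p ∣ a) →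
    ∑ d ∈ FC N κ, |Sq w Q N y (r d) d - Sq w Q N y 1 1 * (1 / (d : ℝ))| ≤ c₁ * κ * (W0 * Pq Q y) + N / Real.log N ^ U ∧
      |Sq w Q N y 1 1 - W0 * Pq Q y| ≤ c₁ * κ * (W0 * Pq Q y) + N / Real.log N ^ U := by
  obtain ⟨κ₀, hκ₀, h⟩ := Pool.Agent.J4.H90.CH.lvlG c hc c₁ hc₁ hc₂
  refine ⟨κ₀, hκ₀, fun κ hκ hκ' U => ?_⟩
  obtain ⟨U', hU⟩ := h κ hκ hκ' U
  refine ⟨U', ?_⟩
  filter_upwards [hU, eventually_ge_atTop 1] with N hN hN1 y hy1 hy2 w W0 hw hrough hW0 hW1 hD Q hQ a ha haN r hr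
  exact hN y hy1 hy2 w W0 hw hW0 hW1 hrough hD Q hQ r a ha
    (haN.trans (by nlinarith)) (fun d p _ hp h1 h2 => hr d p hp h1 h2)

theorem few_S (k t0 : ℕ) {δ ε' κm Cv : ℝ} (hδ : 0 < δ) (hε : 0 < ε') (hκm : 0 < κm) (hCv : 0 < Cv) :
    ∃ κ Λ : ℝ, 0 < κ ∧ κ ≤ κm ∧ κ ≤ 1 / 25 ∧ 0 < Λ ∧ ∀ᶠ N : ℕ in atTop,
      ∀ y : ℕ, (y : ℝ) < (N : ℝ) ^ κ → (N : ℝ) ^ κ ≤ y + 1 →
      ∀ A T0 X0 : Finset ℕ, T0.card = t0 → T0.Nonempty → X0.card ≤ y → Disjoint T0 A →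
      (∀ a ∈ A, (a : ℝ) ≤ N - (N : ℝ) ^ (1 / 2 : ℝ)) → (∀ a ∈ A ∪ T0, ∀ t ∈ A ∪ T0, Even (a + t)) →
      ∀ e : ℕ → ℝ, (∀ n, 0 ≤ e n ∧ e n ≤ 1) → (∀ n ∈ Icc 1 N, n ∉ X0 → e n ≤ rT T0 y n) →
      ∀ g : ℕ → ℝ, (∀ n, 0 ≤ g n ∧ g n ≤ ro y n) →
      ∀ H : ℕ, Λ * Real.log N ≤ H → A.card ≤ H → ∀ σ : ℝ, 1 ≤ σ →
      (∀ j ≤ k + 2, ∑ S ∈ A.powersetCard j, VT y (T0 ∪ S) ≤
        Cv * σ * (2 / κ) ^ (j + t0) * ((H : ℝ) ^ j / Real.log N ^ (j + t0))) →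
      ∀ Bad : Finset (Finset ℕ),
        (∀ D' ∈ Bad, D' ∈ A.powersetCard (k + 1) ∧
          ¬ Good e g (ro y) (LF y (FR N κ) N) (δ * σ * (N / Real.log N ^ (k + t0 + 1))) D') →
        (Bad.card : ℝ) ≤ ε' * (H : ℝ) ^ (k + 1) := Pool.Agent.J4.H31.CH.few_S k t0 hδ hε hκm hCv

end Pool.Agent.J4.H38.CH
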