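import Mathlib
import Pool.Agent.J4.H38.CH.Defs

/-! Project CH: the forbidden classes of the switched sequence. -/

set_option autoImplicit false

namespace Pool.Agent.J4.H38.CH

open Finset Filter
open Pool.Agent.J4.H38.SR2 (QW sh perA_QW card_sh)
open Pool.Agent.H373R2.T7 (pz Vz mem_pz rhoA PerA)

/-- forbidden classes of the switched sequence: `m + w` or `N - m` is divisible by `p` -/
def QB (D : Finset ℕ) (N p m : ℕ) : Prop := (∃ w ∈ D, p ∣ m + w) ∨ m ≡ N [MOD p]

lemma rho_add (Q : ℕ → ℕ → Prop) {p : ℕ} (hp : p.Prime) :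
    open Classical in rhoA Q p + 1 = ((range p).filter (fun r => p ∣ r ∨ Q p r)).card := by
  classical
  unfold rhoA
  have h : (range p).filter (fun r => p ∣ r ∨ Q p r) = insert 0 ((range p).filter (fun r => ¬ p ∣ r ∧ Q p r)) := by
    ext r
    rw [mem_insert, mem_filter, mem_filter, mem_range]
    constructor
    · rintro ⟨h1, h2⟩
      by_cases h3 : p ∣ r
      · left
        exact Nat.eq_zero_of_dvd_of_lt h3 h1
      · right
        exact ⟨h1, h3, h2.resolve_left h3⟩
    · rintro (rfl | ⟨h1, h2, h3⟩)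
      · exact ⟨hp.pos, Or.inl (dvd_zero p)⟩
      · exact ⟨h1, Or.inr h3⟩
  rw [h, card_insert_of_notMem]
  rw [mem_filter]
  rintro ⟨_, h1, _⟩
  exact h1 (dvd_zero p)

open Classical in
lemma card_refl {p : ℕ} (hp : p.Prime) (N : ℕ) (R R' : ZMod p → Prop) (h : ∀ x, R x → R' (N - x)) :
    ((range p).filter (fun r : ℕ => R (r : ZMod p))).card ≤
      ((range p).filter (fun r : ℕ => R' (r : ZMod p))).card := by
  have hc : ∀ r < p, (((N + (p - r)) % p : ℕ) : ZMod p) = N - r := by
    intro r hr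
    rw [ZMod.natCast_mod, Nat.cast_add, Nat.cast_sub hr.le, ZMod.natCast_self]
    ring
  refine card_le_card_of_injOn (fun r => (N + (p - r)) % p) (fun r hr => ?_) fun r hr s hs hrs => ?_
  · rw [mem_coe, mem_filter, mem_range] at hr
    rw [mem_coe, mem_filter, mem_range]
    refine ⟨Nat.mod_lt _ hp.pos, ?_⟩
    simp only
    rw [hc r hr.1]
    exact h _ hr.2
  · rw [mem_coe, mem_filter, mem_range] at hr hs
    simp only at hrs
    have h1 : (((N + (p - r)) % p : ℕ) : ZMod p) = (((N + (p - s)) % p : ℕ) : ZMod p) := by rw [hrs]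
    rw [hc r hr.1, hc s hs.1] at h1
    have h2 : (r : ZMod p) = s := sub_right_injective h1
    rw [ZMod.natCast_eq_natCast_iff] at h2
    have h3 : r % p = s % p := h2
    rwa [Nat.mod_eq_of_lt hr.1, Nat.mod_eq_of_lt hs.1] at h3

lemma rho_QB (D : Finset ℕ) (N : ℕ) {p : ℕ} (hp : p.Prime) :
    rhoA (QB D N) p = rhoA (QW (sh N (insert 0 D))) p := by
  classical
  have hA : ∀ r : ℕ, (p ∣ r ∨ QW (sh N (insert 0 D)) p r) ↔
      ((r : ZMod p) = 0 ∨ (r : ZMod p) = N ∨ ∃ w ∈ D, (r : ZMod p) = N + w) := by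
    intro r
    unfold QW sh
    rw [← ZMod.natCast_eq_zero_iff]
    refine or_congr Iff.rfl ?_
    constructor
    · rintro ⟨x, hx, h⟩
      obtain ⟨w, hw, rfl⟩ := mem_image.1 hx
      rw [← ZMod.natCast_eq_natCast_iff] at h
      rcases mem_insert.1 hw with rfl | hw
      · left
        rw [← h, zero_add]
      · right
        refine ⟨w, hw, ?_⟩
        rw [← h]
        push_cast
        ring
    · rintro (h | ⟨w, hw, h⟩)
      · refine ⟨0 + N, mem_image_of_mem _ (mem_insert_self _ _), ?_⟩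
        rw [← ZMod.natCast_eq_natCast_iff, h, zero_add]
      · refine ⟨w + N, mem_image_of_mem _ (mem_insert_of_mem hw), ?_⟩
        rw [← ZMod.natCast_eq_natCast_iff, h]
        push_cast
        ring
  have hB : ∀ r : ℕ, (p ∣ r ∨ QB D N p r) ↔
      ((r : ZMod p) = 0 ∨ (∃ w ∈ D, (r : ZMod p) + w = 0) ∨ (r : ZMod p) = N) := by
    intro r
    unfold QB
    rw [← ZMod.natCast_eq_zero_iff, ← ZMod.natCast_eq_natCast_iff]
    refine or_congr Iff.rfl (or_congr ?_ Iff.rfl)
    refine exists_congr fun w => and_congr Iff.rfl ?_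
    rw [← ZMod.natCast_eq_zero_iff, Nat.cast_add]
  have h1 := rho_add (QB D N) hp
  have h2 := rho_add (QW (sh N (insert 0 D))) hp
  have e1 : (range p).filter (fun r => p ∣ r ∨ QB D N p r) = (range p).filter (fun r : ℕ =>
      (fun x : ZMod p => x = 0 ∨ (∃ w ∈ D, x + w = 0) ∨ x = N) (r : ZMod p)) :=
    filter_congr fun r _ => hB r
  have e2 : (range p).filter (fun r => p ∣ r ∨ QW (sh N (insert 0 D)) p r) = (range p).filter (fun r : ℕ =>
      (fun x : ZMod p => x = 0 ∨ x = N ∨ ∃ w ∈ D, x = N + w) (r : ZMod p)) :=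
    filter_congr fun r _ => hA r
  rw [e1] at h1
  rw [e2] at h2
  have l1 := card_refl hp N (fun x : ZMod p => x = 0 ∨ (∃ w ∈ D, x + w = 0) ∨ x = N)
    (fun x : ZMod p => x = 0 ∨ x = N ∨ ∃ w ∈ D, x = N + w) (by
      rintro x (h | ⟨w, hw, h⟩ | h)
      · right; left
        rw [h, sub_zero]
      · right; right
        refine ⟨w, hw, ?_⟩
        linear_combination -h
      · left
        rw [h, sub_self])
  have l2 := card_refl hp N (fun x : ZMod p => x = 0 ∨ x = N ∨ ∃ w ∈ D, x = N + w)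
    (fun x : ZMod p => x = 0 ∨ (∃ w ∈ D, x + w = 0) ∨ x = N) (by
      rintro x (h | h | ⟨w, hw, h⟩)
      · right; right
        rw [h, sub_zero]
      · left
        rw [h, sub_self]
      · right; left
        refine ⟨w, hw, ?_⟩
        linear_combination -h)
  have g1 : rhoA (QB D N) p + 1 ≤ rhoA (QW (sh N (insert 0 D))) p + 1 := by
    rw [h1, h2]
    convert l1
  have g2 : rhoA (QW (sh N (insert 0 D))) p + 1 ≤ rhoA (QB D N) p + 1 := by
    rw [h1, h2]
    convert l2
  omega

lemma perA_QA (D : Finset ℕ) (N k : ℕ) (hD : D.card = k) : PerA (QW (sh N (insert 0 D))) (k + 2) := by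
  refine perA_QW _ (k + 1) ?_
  rw [card_sh]
  exact (card_insert_le _ _).trans (by omega)

lemma perA_QB (D : Finset ℕ) (N k : ℕ) (hD : D.card = k) : PerA (QB D N) (k + 2) := by
  constructor
  · intro p n
    unfold QB
    refine or_congr (exists_congr fun w => and_congr Iff.rfl ?_) ?_
    · have h : n + w ≡ n % p + w [MOD p] := Nat.ModEq.add_right w (Nat.mod_modEq n p).symm
      exact h.dvd_iff dvd_rfl
    · exact ⟨fun h => (Nat.mod_modEq n p).trans h, fun h => (Nat.mod_modEq n p).symm.trans h⟩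
  · intro p hp
    rw [rho_QB D N hp]
    exact (perA_QA D N k hD).few p hp

end Pool.Agent.J4.H38.CH
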