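import Mathlib
import Pool.Agent.J4.H38.CH.All
import Pool.Agent.J4.H38.CH.Base1

/-! Project CH: primes `p ≤ N` with `N - p` almost prime and rough `N + d - p`. -/

set_option autoImplicit false

namespace Pool.Agent.J4.H38.CH

open Finset Filter
open Pool.Agent.W23.DC (tt pr ind)
open Pool.Agent.Y822.F (iu)
open Pool.Agent.J4.H38.SR
open Pool.Agent.J4.H38.SR2
open Pool.Agent.J4.H38.SR3
open Pool.Agent.Y822
open Pool.Agent.H373R2.T7 (pz Vz mem_pz rhoA PerA)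
open Pool.Agent.H387R2.Uni (nuT Adm locT CT)
open Pool.Agent.H442R2.EHI (lis)

open Classical in
/-- the integers with the conditions modulo the small primes -/
noncomputable def Om (Q : ℕ → ℕ → Prop) (N y : ℕ) : Finset ℕ :=
  (Icc 1 (2 * N)).filter (fun n => ∀ p ∈ pz y, ¬ p ∣ n ∧ ¬ Q p n)

lemma sw_bd (N m : ℕ) : 0 ≤ sw N m ∧ sw N m ≤ 1 := by
  unfold sw; split_ifs <;> norm_num

lemma wA_bd (N m : ℕ) : 0 ≤ wA N m ∧ wA N m ≤ 1 := by
  unfold wA; split_ifs <;> norm_num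

lemma gC_bd (N m : ℕ) : 0 ≤ gC N m ∧ gC N m ≤ 1 := by
  unfold gC; split_ifs <;> norm_num

lemma iu_bd (N : ℕ) (a b : ℝ) (m : ℕ) : 0 ≤ iu N a b m ∧ iu N a b m ≤ 1 := by
  unfold iu; split_ifs <;> norm_num

lemma Wk_le_one (N : ℕ) (κ : ℝ) (m : ℕ) : Wk N κ m ≤ 1 := by
  unfold Wk
  have h1 := iu_bd N κ (1 / 8) m
  have h2 : 0 ≤ ∑ q ∈ pr N (1 / 8) (1 / 3), ind m q := sum_nonneg fun q _ => by
    unfold ind
    split_ifs <;> norm_num
  nlinarith

lemma wA_ro (N y : ℕ) : ∀ n, y < n → wA N n ≠ 0 → ∀ p ∈ pz y, ¬ p ∣ n := by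
  intro n hn hw p hp hd
  have h : n.Prime := by
    by_contra hc
    exact hw (by unfold wA; rw [if_neg fun h => hc h.1])
  have h1 := (Nat.prime_dvd_prime_iff_eq (mem_pz.1 hp).2 h).1 hd
  have h2 := (mem_pz.1 hp).1
  omega

lemma wB_ro {N y : ℕ} (hy : (y : ℝ) < (N : ℝ) ^ (1 / 8 : ℝ)) : ∀ n, y < n → wB N n ≠ 0 → ∀ p ∈ pz y, ¬ p ∣ n := by
  intro n _ hw p hp hd
  have h1 := wB_rough hw p (mem_pz.1 hp).2 hd
  have h2 : (p : ℝ) ≤ y := by exact_mod_cast (mem_pz.1 hp).1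
  linarith

lemma sum_OmA (Q : ℕ → ℕ → Prop) (N y d : ℕ) :
    ∑ n ∈ Om Q N y, wA N n * ind (N - n) d = Sq (wA N) Q N y N d := by
  classical
  unfold Sq Om
  rw [← filter_filter]
  conv_rhs => rw [sum_filter]
  refine sum_congr rfl fun n _ => ?_
  by_cases h : n.Prime ∧ n ≤ N
  · have h1 : n ≡ N [MOD d] ↔ d ∣ N - n := Nat.modEq_iff_dvd' h.2
    unfold ind
    by_cases h2 : d ∣ N - n
    · rw [if_pos h2, if_pos (h1.2 h2), mul_one]
    · rw [if_neg h2, if_neg (fun h3 => h2 (h1.1 h3)), mul_zero]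
  · have h1 : wA N n = 0 := by unfold wA; rw [if_neg h]
    rw [h1, zero_mul]
    split_ifs <;> rfl

lemma dvd_mB (N u d : ℕ) : d ∣ (N - u) + (u - N) ↔ u ≡ N [MOD d] := by
  rcases le_total u N with h | h
  · rw [Nat.sub_eq_zero_of_le h, add_zero]
    exact (Nat.modEq_iff_dvd' h).symm
  · rw [Nat.sub_eq_zero_of_le h, zero_add]
    exact ((Nat.modEq_iff_dvd' h).symm).trans ⟨fun h => h.symm, fun h => h.symm⟩

lemma sum_OmB (Q : ℕ → ℕ → Prop) (N y d : ℕ) :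
    ∑ n ∈ Om Q N y, wB N n * ind ((N - n) + (n - N)) d = Sq (wB N) Q N y N d := by
  classical
  unfold Sq Om
  rw [← filter_filter]
  conv_rhs => rw [sum_filter]
  refine sum_congr rfl fun n _ => ?_
  unfold ind
  by_cases h2 : d ∣ (N - n) + (n - N)
  · rw [if_pos h2, if_pos ((dvd_mB N n d).1 h2), mul_one]
  · rw [if_neg h2, if_neg (fun h3 => h2 ((dvd_mB N n d).2 h3)), mul_zero]

/-- the conditions on a prime `u` are those on the reflected integer -/
lemma Om_refl {N y u : ℕ} {D : Finset ℕ} (hy : 2 ≤ y) (hu : u ∈ Om (QW (sh N (insert 0 D))) N y) (huN : u ≤ N) :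
    u < N ∧ N - u ∈ Om (QB D N) N y ∧ Ro y (N - u) ∧ ∀ t ∈ D, Ro y (N - u + t) := by
  classical
  unfold Om at hu ⊢
  rw [mem_filter, mem_Icc] at hu ⊢
  obtain ⟨⟨h1, _⟩, h2⟩ := hu
  have h0 : ∀ p ∈ pz y, ¬ p ∣ N - u := by
    intro p hp hd
    refine (h2 p hp).2 ⟨0 + N, mem_image_of_mem _ (mem_insert_self _ _), ?_⟩
    rw [zero_add]
    exact ((Nat.modEq_iff_dvd' huN).2 hd).symm
  have ht : ∀ t ∈ D, ∀ p ∈ pz y, ¬ p ∣ N - u + t := by
    intro t ht p hp hd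
    refine (h2 p hp).2 ⟨t + N, mem_image_of_mem _ (mem_insert_of_mem ht), ?_⟩
    have h3 : u + (N - u + t) = t + N := by omega
    have h4 : u + (N - u + t) ≡ u + 0 [MOD p] := Nat.ModEq.add_left u ((Nat.modEq_zero_iff_dvd).2 hd)
    rw [h3, add_zero] at h4
    exact h4
  have hlt : u < N := by
    rcases lt_or_eq_of_le huN with h | h
    · exact h
    · exfalso
      refine h0 2 (mem_pz.2 ⟨hy, Nat.prime_two⟩) ?_
      rw [h, Nat.sub_self]
      exact dvd_zero 2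
  refine ⟨hlt, ⟨⟨by omega, by omega⟩, fun p hp => ⟨h0 p hp, ?_⟩⟩, ?_, ?_⟩
  · rintro (⟨w, hw, hd⟩ | h)
    · exact ht w hw p hp hd
    · have h3 : p ∣ N - (N - u) := (Nat.modEq_iff_dvd' (by omega)).1 h
      have h4 : N - (N - u) = u := by omega
      rw [h4] at h3
      exact (h2 p hp).1 h3
  · intro p hp hpy
    exact h0 p (mem_pz.2 ⟨hpy, hp⟩)
  · intro t htt p hp hpy
    exact ht t htt p (mem_pz.2 ⟨hpy, hp⟩)

open Classical in
/-- the switching -/
lemma switch {N y : ℕ} {κ : ℝ} {D : Finset ℕ} (hN : 2 ≤ N) (hy : 2 ≤ y) :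
    ∑ u ∈ Om (QW (sh N (insert 0 D))) N y, wA N u * sw N (N - u) ≤
      ∑ m ∈ Om (QB D N) N y, wB N m * iu N κ (1 / 6) ((N - m) + (m - N)) + (N : ℝ) ^ (1 / 6 : ℝ) := by
  obtain ⟨A, hA⟩ : ∃ A, A = Om (QW (sh N (insert 0 D))) N y := ⟨_, rfl⟩
  obtain ⟨S1, hS1⟩ : ∃ S1, S1 = A.filter (fun u => (u.Prime ∧ u ≤ N) ∧ sw N (N - u) ≠ 0 ∧
    (N : ℝ) ^ (1 / 6 : ℝ) ≤ u) := ⟨_, rfl⟩
  rw [← hA]
  have h1 : ∑ u ∈ A, wA N u * sw N (N - u) ≤ (S1.card : ℝ) +
      ((A.filter (fun u : ℕ => (u : ℝ) < (N : ℝ) ^ (1 / 6 : ℝ))).card : ℝ) := by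
    rw [hS1, card_filter, card_filter]
    push_cast
    rw [← sum_add_distrib]
    refine sum_le_sum fun u _ => ?_
    have hs := sw_bd N (N - u)
    by_cases h1 : u.Prime ∧ u ≤ N
    · have h2 : wA N u = 1 := by unfold wA; rw [if_pos h1]
      rw [h2, one_mul]
      by_cases h3 : sw N (N - u) = 0
      · rw [h3]
        positivity
      · by_cases h4 : (N : ℝ) ^ (1 / 6 : ℝ) ≤ u
        · rw [if_pos ⟨h1, h3, h4⟩]
          split_ifs <;> linarith
        · rw [if_pos (not_le.1 h4)]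
          split_ifs <;> linarith
    · have h2 : wA N u = 0 := by unfold wA; rw [if_neg h1]
      rw [h2, zero_mul]
      positivity
  have h2 : ((A.filter (fun u : ℕ => (u : ℝ) < (N : ℝ) ^ (1 / 6 : ℝ))).card : ℝ) ≤ (N : ℝ) ^ (1 / 6 : ℝ) := by
    have h3 : A.filter (fun u : ℕ => (u : ℝ) < (N : ℝ) ^ (1 / 6 : ℝ)) ⊆ Icc 1 ⌊(N : ℝ) ^ (1 / 6 : ℝ)⌋₊ := by
      intro u hu
      rw [mem_filter, hA] at hu
      unfold Om at hu
      rw [mem_filter, mem_Icc] at hu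
      rw [mem_Icc]
      exact ⟨hu.1.1.1, Nat.le_floor hu.2.le⟩
    have h4 := card_le_card h3
    rw [Nat.card_Icc, Nat.add_sub_cancel] at h4
    calc ((A.filter (fun u : ℕ => (u : ℝ) < (N : ℝ) ^ (1 / 6 : ℝ))).card : ℝ) ≤
          (⌊(N : ℝ) ^ (1 / 6 : ℝ)⌋₊ : ℝ) := by exact_mod_cast h4
      _ ≤ _ := Nat.floor_le (by positivity)
  have h3 : (S1.card : ℝ) ≤ ∑ m ∈ Om (QB D N) N y, wB N m * iu N κ (1 / 6) ((N - m) + (m - N)) := by
    have hmem : ∀ u ∈ S1, (u < N ∧ N - u ∈ Om (QB D N) N y) ∧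
        (1 : ℝ) ≤ wB N (N - u) * iu N κ (1 / 6) ((N - (N - u)) + (N - u - N)) := by
      intro u hu
      rw [hS1, mem_filter] at hu
      obtain ⟨h1, ⟨h2, h3⟩, h4, h5⟩ := hu
      rw [hA] at h1
      obtain ⟨g1, g2, _, _⟩ := Om_refl hy h1 h3
      refine ⟨⟨g1, g2⟩, ?_⟩
      have g3 := wB_ge hN (m := N - u) (by omega) (by omega) h4
      have g4 : (N - (N - u)) + (N - u - N) = u := by omega
      rw [g4]
      have g5 : iu N κ (1 / 6) u = 1 := by
        unfold iu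
        rw [if_pos]
        intro p hp hd
        unfold pr at hp
        rw [mem_filter] at hp
        have g6 := (Nat.prime_dvd_prime_iff_eq hp.2.1 h2).1 hd
        rw [g6] at hp
        have g7 := (Pool.Agent.W23.DC.le_tt_iff hN h2.pos (u := 1 / 6)).2 h5
        linarith [hp.2.2.2]
      rw [g5, mul_one]
      exact g3
    have hinj : Set.InjOn (fun u => N - u) (S1 : Set ℕ) := by
      intro u hu v hv h
      have h1 := (hmem u hu).1.1
      have h2 := (hmem v hv).1.1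
      simp only at h
      omega
    calc (S1.card : ℝ) = ∑ _u ∈ S1, (1 : ℝ) := by rw [sum_const, nsmul_eq_mul, mul_one]
      _ ≤ ∑ u ∈ S1, wB N (N - u) * iu N κ (1 / 6) ((N - (N - u)) + (N - u - N)) :=
          sum_le_sum fun u hu => (hmem u hu).2
      _ = ∑ m ∈ S1.image (fun u => N - u), wB N m * iu N κ (1 / 6) ((N - m) + (m - N)) := by
          rw [sum_image hinj]
      _ ≤ _ := by
          refine sum_le_sum_of_subset_of_nonneg ?_ fun m _ _ => mul_nonneg (wB_bd N m).1 (iu_bd _ _ _ _).1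
          intro m hm
          obtain ⟨u, hu, rfl⟩ := mem_image.1 hm
          exact (hmem u hu).1.2
  linarith

open Classical in
/-- the weighted sum is at most the number of the solutions -/
lemma weights_le {N y : ℕ} {κ : ℝ} {D : Finset ℕ} (hN : 257 ≤ N) (hy : 2 ≤ y) (hyb : (N : ℝ) ^ κ ≤ y + 1) :
    ∑ u ∈ Om (QW (sh N (insert 0 D))) N y, wA N u * (Wk N κ (N - u) - 1 / 2 * sw N (N - u)) ≤
      ∑ n ∈ Icc 1 N, eG N n * gC N n * ∏ t ∈ D, ro y (n + t) + ∑ n ∈ Icc 1 N, bq8 N n + 1 := by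
  obtain ⟨A, hA⟩ : ∃ A, A = Om (QW (sh N (insert 0 D))) N y := ⟨_, rfl⟩
  rw [← hA]
  obtain ⟨F, hF⟩ : ∃ F : ℕ → ℝ, F = fun n => eG N n * gC N n * ∏ t ∈ D, ro y (n + t) + bq8 N n +
    (if n = 1 then 1 else 0) := ⟨_, rfl⟩
  have hF0 : ∀ n, 0 ≤ F n := by
    intro n
    rw [hF]
    have h1 := eG_bd N n
    have h2 := gC_bd N n
    have h3 : 0 ≤ ∏ t ∈ D, ro y (n + t) := prod_nonneg fun t _ => ro_nonneg _ _
    have h4 := bq8_nonneg N n
    have h5 : (0 : ℝ) ≤ if n = 1 then 1 else 0 := by split_ifs <;> norm_num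
    have h6 := mul_nonneg (mul_nonneg h1.1 h2.1) h3
    simp only
    linarith
  obtain ⟨S, hS⟩ : ∃ S, S = A.filter (fun u => u.Prime ∧ u ≤ N) := ⟨_, rfl⟩
  have h1 : ∑ u ∈ A, wA N u * (Wk N κ (N - u) - 1 / 2 * sw N (N - u)) =
      ∑ u ∈ S, (Wk N κ (N - u) - 1 / 2 * sw N (N - u)) := by
    rw [hS, sum_filter]
    refine sum_congr rfl fun u _ => ?_
    unfold wA
    split_ifs
    · rw [one_mul]
    · rw [zero_mul]
  have hSm : ∀ u ∈ S, u < N ∧ Wk N κ (N - u) - 1 / 2 * sw N (N - u) ≤ F (N - u) := by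
    intro u hu
    rw [hS, mem_filter, hA] at hu
    obtain ⟨h2, h3, h4⟩ := hu
    obtain ⟨g1, _, g2, g3⟩ := Om_refl hy h2 h4
    refine ⟨g1, ?_⟩
    have e1 : eG N (N - u) = 1 := by
      unfold eG
      rw [show N - (N - u) = u by omega, if_pos h3]
    have e2 : ∏ t ∈ D, ro y (N - u + t) = 1 := prod_eq_one fun t ht => by
      unfold ro
      rw [if_pos (g3 t ht)]
    have e3 : ro y (N - u) = 1 := by
      unfold ro
      rw [if_pos g2]
    rw [hF]
    simp only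
    rw [e1, e2, one_mul, mul_one]
    have h5 := gC_bd N (N - u)
    have h6 := bq8_nonneg N (N - u)
    by_cases h7 : N - u = 1
    · rw [if_pos h7]
      have h8 := Wk_le_one N κ (N - u)
      have h9 := sw_bd N (N - u)
      linarith
    · rw [if_neg h7, add_zero]
      have h8 := ptwC hN hyb (m := N - u) (by omega) (by omega)
      rwa [e3, one_mul] at h8
  have hinj : Set.InjOn (fun u => N - u) (S : Set ℕ) := by
    intro u hu v hv h
    have h1 := (hSm u hu).1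
    have h2 := (hSm v hv).1
    simp only at h
    omega
  rw [h1]
  calc ∑ u ∈ S, (Wk N κ (N - u) - 1 / 2 * sw N (N - u)) ≤ ∑ u ∈ S, F (N - u) :=
        sum_le_sum fun u hu => (hSm u hu).2
    _ = ∑ n ∈ S.image (fun u => N - u), F n := by rw [sum_image hinj]
    _ ≤ ∑ n ∈ Icc 1 N, F n := by
        refine sum_le_sum_of_subset_of_nonneg ?_ fun m _ _ => hF0 m
        intro m hm
        obtain ⟨u, hu, rfl⟩ := mem_image.1 hm
        have := (hSm u hu).1
        rw [mem_Icc]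
        omega
    _ = _ := by
        rw [hF, sum_add_distrib, sum_add_distrib]
        congr 1
        rw [sum_ite_eq', if_pos]
        rw [mem_Icc]
        omega

end Pool.Agent.J4.H38.CH
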