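import Mathlib
import Pool.Agent.J4.H38.CH.Base2

/-! Project CH: primes `p ≤ N` with `N - p` almost prime and rough `N + d - p`, the lower bound. -/

set_option autoImplicit false

namespace Pool.Agent.J4.H38.CH

open Finset Filter
open Pool.Agent.W23.DC (tt pr ind)
open Pool.Agent.Y822.F (iu)
open Pool.Agent.J4.H38.SR
open Pool.Agent.J4.H38.SR2
open Pool.Agent.J4.H38.SR3
open Pool.Agent.Y822
open Pool.Agent.H373R2.T7 (pz Vz mem_pz rhoA PerA)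
open Pool.Agent.H387R2.Uni (nuT Adm locT CT)
open Pool.Agent.H442R2.EHI (lis)

lemma lis_bd {N : ℕ} (hN : 2 ≤ N) : ((N : ℝ) - 1) / Real.log N ≤ lis N ∧ lis N ≤ 2 * N ∧ 0 ≤ lis N := by
  have hc : ((Icc 2 N).card : ℝ) = N - 1 := by
    rw [Nat.card_Icc, show N + 1 - 2 = N - 1 by omega, Nat.cast_sub (by omega), Nat.cast_one]
  have hl : ∀ n ∈ Icc 2 N, Real.log 2 ≤ Real.log n ∧ Real.log n ≤ Real.log N := by
    intro n hn
    rw [mem_Icc] at hn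
    exact ⟨Real.log_le_log (by norm_num) (by exact_mod_cast hn.1),
      Real.log_le_log (by exact_mod_cast (by omega : 0 < n)) (by exact_mod_cast hn.2)⟩
  have h2 : (1 / 2 : ℝ) ≤ Real.log 2 := by have := Real.log_two_gt_d9; linarith
  refine ⟨?_, ?_, ?_⟩
  · unfold lis
    calc ((N : ℝ) - 1) / Real.log N = ∑ _n ∈ Icc 2 N, 1 / Real.log N := by
          rw [sum_const, nsmul_eq_mul, hc]
          ring
      _ ≤ _ := sum_le_sum fun n hn => one_div_le_one_div_of_le (by linarith [(hl n hn).1]) (hl n hn).2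
  · unfold lis
    calc ∑ n ∈ Icc 2 N, 1 / Real.log n ≤ ∑ _n ∈ Icc 2 N, (2 : ℝ) := by
          refine sum_le_sum fun n hn => ?_
          have h3 := (hl n hn).1
          rw [div_le_iff₀ (by linarith)]
          linarith
      _ = 2 * (N - 1) := by rw [sum_const, nsmul_eq_mul, hc]; ring
      _ ≤ _ := by linarith
  · unfold lis
    exact sum_nonneg fun n hn => by
      have h3 := (hl n hn).1
      have : 0 ≤ Real.log n := by linarith
      positivity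

lemma calcC {A0 κ P Λ W n L e s6 XA RA XB RB SA T TB G bb R c₁ : ℝ} (hA : 0 < A0) (hκ : 0 < κ)
    (hκ1 : κ ≤ 1 / 25) (hP0 : 0 ≤ P) (hP1 : P ≤ 1) (hΛ0 : 0 ≤ Λ) (hW0 : 0 ≤ W) (hL : 1 ≤ L) (he : 0 ≤ e)
    (hs6 : 0 ≤ s6) (hn : 0 ≤ n) (hc0 : 0 < c₁)
    (hc1 : c₁ ≤ A0 / 10000) (hc2 : c₁ ≤ 1 / 10000) (hXA : |XA - Λ * P| ≤ c₁ * κ * (Λ * P) + e)
    (hRA : RA ≤ c₁ * κ * (Λ * P) + e) (hXB : |XB - W * P| ≤ c₁ * κ * (W * P) + e)
    (hRB : RB ≤ c₁ * κ * (W * P) + e) (hSA : 385 / 1000 * (A0 * κ * XA) - 2 * RA ≤ SA)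
    (hTB : TB ≤ 2005 / 1000 * (A0 * κ * XB) + RB) (hT : T ≤ TB + s6) (hG : SA - 1 / 2 * T ≤ G + bb + 1)
    (hΛ : (n - 1) / L ≤ Λ) (hW : W ≤ 379 / 1000 * (n / L))
    (hfin : (3 + 2 * A0) * e + bb + 1 + s6 + A0 ≤ R) :
    A0 / 250 * κ * (n / L * P) - R ≤ G := by
  have hAκ : 0 < A0 * κ := by positivity
  have hAκ1 : A0 * κ ≤ A0 := by nlinarith
  have hck : c₁ * κ ≤ 1 / 250000 := by nlinarith
  have hck0 : 0 < c₁ * κ := by positivity
  have hΛP : 0 ≤ Λ * P := by positivity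
  have hWP : 0 ≤ W * P := by positivity
  obtain ⟨a, ha⟩ : ∃ a, a = A0 * κ * (Λ * P) := ⟨_, rfl⟩
  obtain ⟨b, hb⟩ : ∃ b, b = A0 * κ * (W * P) := ⟨_, rfl⟩
  obtain ⟨q, hq⟩ : ∃ q, q = A0 * κ * (n / L * P) := ⟨_, rfl⟩
  have ha0 : 0 ≤ a := by rw [ha]; positivity
  have hb0 : 0 ≤ b := by rw [hb]; positivity
  have hq0 : 0 ≤ q := by rw [hq]; positivity
  have e1 : c₁ * κ * (Λ * P) ≤ a / 10000 := by
    have h1 : c₁ * (κ * (Λ * P)) ≤ A0 / 10000 * (κ * (Λ * P)) := mul_le_mul_of_nonneg_right hc1 (by positivity)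
    rw [ha]
    linarith
  have e2 : c₁ * κ * (W * P) ≤ b / 10000 := by
    have h1 : c₁ * (κ * (W * P)) ≤ A0 / 10000 * (κ * (W * P)) := mul_le_mul_of_nonneg_right hc1 (by positivity)
    rw [hb]
    linarith
  have e3 : a - a / 250000 - A0 * e ≤ A0 * κ * XA := by
    have h1 := (abs_le.1 hXA).1
    have h2 : A0 * κ * (Λ * P - (c₁ * κ * (Λ * P) + e)) ≤ A0 * κ * XA :=
      mul_le_mul_of_nonneg_left (by linarith) hAκ.le
    have h3 : A0 * κ * (Λ * P - (c₁ * κ * (Λ * P) + e)) = a - c₁ * κ * a - A0 * κ * e := by rw [ha]; ring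
    have h4 : c₁ * κ * a ≤ 1 / 250000 * a := mul_le_mul_of_nonneg_right hck ha0
    have h5 : A0 * κ * e ≤ A0 * e := mul_le_mul_of_nonneg_right hAκ1 he
    linarith
  have e4 : A0 * κ * XB ≤ b + b / 250000 + A0 * e := by
    have h1 := (abs_le.1 hXB).2
    have h2 : A0 * κ * XB ≤ A0 * κ * (W * P + (c₁ * κ * (W * P) + e)) :=
      mul_le_mul_of_nonneg_left (by linarith) hAκ.le
    have h3 : A0 * κ * (W * P + (c₁ * κ * (W * P) + e)) = b + c₁ * κ * b + A0 * κ * e := by rw [hb]; ring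
    have h4 : c₁ * κ * b ≤ 1 / 250000 * b := mul_le_mul_of_nonneg_right hck hb0
    have h5 : A0 * κ * e ≤ A0 * e := mul_le_mul_of_nonneg_right hAκ1 he
    linarith
  have e5 : q - A0 ≤ a := by
    have h1 : A0 * κ * ((n - 1) / L * P) ≤ a := by
      rw [ha]
      exact mul_le_mul_of_nonneg_left (mul_le_mul_of_nonneg_right hΛ hP0) hAκ.le
    have h2 : A0 * κ * ((n - 1) / L * P) = q - A0 * κ * (P / L) := by rw [hq]; ring
    have h3 : P / L ≤ 1 := by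
      rw [div_le_one (by linarith)]
      linarith
    have h4 : A0 * κ * (P / L) ≤ A0 * κ * 1 := mul_le_mul_of_nonneg_left h3 hAκ.le
    linarith
  have e6 : b ≤ 379 / 1000 * q := by
    rw [hb, hq]
    have h1 : W * P ≤ 379 / 1000 * (n / L) * P := mul_le_mul_of_nonneg_right hW hP0
    have h2 := mul_le_mul_of_nonneg_left h1 hAκ.le
    linarith
  have e7 : A0 / 250 * κ * (n / L * P) = q / 250 := by rw [hq]; ring
  rw [e7]
  have hAe : 0 ≤ A0 * e := by positivity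
  nlinarith

/-- **a theorem of Chen with rough shifts** -/
theorem baseC : ∃ cC : ℝ, 0 < cC ∧ ∀ k : ℕ, ∃ κ₀ : ℝ, 0 < κ₀ ∧ ∀ κ : ℝ, 0 < κ → κ ≤ κ₀ →
    ∀ U : ℕ, ∀ᶠ N : ℕ in atTop, ∀ y : ℕ, (y : ℝ) < (N : ℝ) ^ κ → (N : ℝ) ^ κ ≤ y + 1 →
    ∀ D : Finset ℕ, 0 ∉ D → D.card = k →
      cC * κ * (N / Real.log N * (PT (pat (sh N (insert 0 D))) y * Vz y ^ (k + 1))) - N / Real.log N ^ U ≤
        ∑ n ∈ Icc 1 N, eG N n * gC N n * ∏ t ∈ D, ro y (n + t) := by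
  classical
  obtain ⟨A0, hA0, hsie⟩ := sieveC
  refine ⟨A0 / 250, by positivity, fun k => ?_⟩
  obtain ⟨c₁, hc₁⟩ : ∃ c₁, c₁ = min A0 1 / 10000 := ⟨_, rfl⟩
  have hc₁0 : 0 < c₁ := by rw [hc₁]; exact div_pos (lt_min hA0 one_pos) (by norm_num)
  have hc₁1 : c₁ ≤ A0 / 10000 := by
    rw [hc₁]
    exact div_le_div_of_nonneg_right (min_le_left _ _) (by norm_num)
  have hc₁2 : c₁ ≤ 1 / 10000 := by
    rw [hc₁]
    exact div_le_div_of_nonneg_right (min_le_right _ _) (by norm_num)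
  obtain ⟨κ₀, hκ₀, hlev⟩ := lvl (k + 2) (by omega) c₁ hc₁0 (by linarith)
  refine ⟨min κ₀ (1 / 25), lt_min hκ₀ (by norm_num), fun κ hκ hκκ U => ?_⟩
  have hκ25 : κ ≤ 1 / 25 := hκκ.trans (min_le_right _ _)
  obtain ⟨N₀, hsie⟩ := hsie κ hκ hκ25
  obtain ⟨U', hlev⟩ := hlev κ hκ (hκκ.trans (min_le_left _ _)) (U + 1)
  filter_upwards [hlev, bva U', bvb U', cnt, eventually_ge_atTop (max N₀ 257),
    ev_logN (eventually_ge_atTop (max 1 (4 * (3 + 2 * A0)))), ev_logN (eventually_ge_atTop ((3 + 2) * (2 / κ))),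
    ev_small U (by norm_num : (0 : ℝ) < 1 / 8) 48 one_pos, ev_small U (by norm_num : (0 : ℝ) < 5 / 6) 4 one_pos,
    ev_small U (by norm_num : (0 : ℝ) < 1) (4 * (1 + A0)) one_pos]
    with N hlev hbva hbvb hcnt hN hL1 hLM hs1 hs2 hs3
  intro y hy1 hy2 D h0 hD
  have hNN₀ : N₀ ≤ N := (le_max_left _ _).trans hN
  have hN257 : 257 ≤ N := (le_max_right _ _).trans hN
  have hN2 : 2 ≤ N := by omega
  have hN0 : (0 : ℝ) < N := by positivity
  obtain ⟨L, hLd⟩ : ∃ L, L = Real.log N := ⟨_, rfl⟩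
  have hrp : ∀ s : ℝ, (N : ℝ) ^ s = Real.exp (s * L) := by
    intro s
    rw [Real.rpow_def_of_pos hN0, ← hLd, mul_comm]
  rw [← hLd] at hlev hbva hbvb hcnt hL1 hLM hs1 hs2 hs3 ⊢
  have hL1' : 1 ≤ L := (le_max_left _ _).trans hL1
  have hLA : 4 * (3 + 2 * A0) ≤ L := (le_max_right _ _).trans hL1
  have hL0 : 0 < L := by linarith
  have hML : ((3 : ℕ) : ℝ) + 2 ≤ κ / 2 * Real.log N := by
    rw [← hLd]
    have h1 : ((3 : ℕ) : ℝ) + 2 = κ / 2 * ((3 + 2) * (2 / κ)) := by field_simp; norm_num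
    rw [h1]
    exact mul_le_mul_of_nonneg_left hLM (by positivity)
  obtain ⟨_, _, y3, _, _, _⟩ := y_core (M := 3) hκ (by omega : 1 ≤ N) hML
    (by rw [← hLd, ← hrp]; exact hy1.le) (by rw [← hLd, ← hrp]; exact hy2)
  have hy3 : 2 ≤ y := by omega
  obtain ⟨l1, l2, l3⟩ := lis_bd hN2
  rw [← hLd] at l1
  obtain ⟨WB, hWB⟩ : ∃ WB, WB = ∑ n ∈ Icc 1 (2 * N), wB N n := ⟨_, rfl⟩
  rw [← hWB] at hbvb hcnt
  have hWB0 : 0 ≤ WB := by rw [hWB]; exact sum_nonneg fun n _ => (wB_bd N n).1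
  have hNL : (N : ℝ) / L ≤ N := div_le_self hN0.le hL1'
  have hWB2 : WB ≤ 2 * N := by linarith
  obtain ⟨P, hP⟩ : ∃ P, P = Pq (QW (sh N (insert 0 D))) y := ⟨_, rfl⟩
  have hPB : Pq (QB D N) y = P := by
    rw [hP]
    unfold Pq
    refine prod_congr rfl fun p hp => ?_
    rw [rho_QB D N (mem_pz.1 hp).2]
  have hP01 := Pq_bd (QW (sh N (insert 0 D))) y
  rw [← hP] at hP01
  have hcW : (sh N (insert 0 D)).card = k + 1 := by
    rw [card_sh, card_insert_of_notMem h0, hD]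
  have hPT : PT (pat (sh N (insert 0 D))) y * Vz y ^ (k + 1) = P := by
    rw [hP]
    unfold Pq
    rw [prod_rhoW (zero_notMem_sh (by omega) _) (k + 1) hcW]
  rw [hPT]
  have hy8 : (y : ℝ) < (N : ℝ) ^ (1 / 8 : ℝ) :=
    hy1.trans_le (Real.rpow_le_rpow_of_exponent_le (by exact_mod_cast (by omega : 1 ≤ N)) (by linarith))
  obtain ⟨a1, a2⟩ := hlev y hy1 hy2 (wA N) (lis N) (wA_bd N) (wA_ro N y) l3 l2 hbva (QW (sh N (insert 0 D)))
    (perA_QA D N k hD) N (by omega) le_rfl (fun _ => N) (fun _ _ _ _ h => h)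
  obtain ⟨b1, b2⟩ := hlev y hy1 hy2 (wB N) WB (wB_bd N) (wB_ro hy8) hWB0 hWB2 hbvb (QB D N) (perA_QB D N k hD) N
    (by omega) le_rfl (fun _ => N) (fun _ _ _ _ h => h)
  rw [← hP] at a1 a2
  rw [hPB] at b1 b2
  have hXA0 : 0 ≤ Sq (wA N) (QW (sh N (insert 0 D))) N y 1 1 := by
    unfold Sq
    exact sum_nonneg fun n _ => (wA_bd N n).1
  have hXB0 : 0 ≤ Sq (wB N) (QB D N) N y 1 1 := by
    unfold Sq
    exact sum_nonneg fun n _ => (wB_bd N n).1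
  have s1 := (hsie N hNN₀ (Om (QW (sh N (insert 0 D))) N y) (wA N) (fun u => N - u)
    (Sq (wA N) (QW (sh N (insert 0 D))) N y 1 1) (fun n _ => (wA_bd N n).1) hXA0).1
  have s2 := (hsie N hNN₀ (Om (QB D N) N y) (wB N) (fun u => (N - u) + (u - N))
    (Sq (wB N) (QB D N) N y 1 1) (fun n _ => (wB_bd N n).1) hXB0).2
  simp only [sum_OmA] at s1
  simp only [sum_OmB] at s2
  have s3 := switch (κ := κ) (D := D) hN2 hy3
  have s4 := weights_le (κ := κ) (D := D) hN257 hy3 hy2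
  have e1 : ∑ u ∈ Om (QW (sh N (insert 0 D))) N y, wA N u * (Wk N κ (N - u) - 1 / 2 * sw N (N - u)) =
      ∑ u ∈ Om (QW (sh N (insert 0 D))) N y, wA N u * Wk N κ (N - u) -
        1 / 2 * ∑ u ∈ Om (QW (sh N (insert 0 D))) N y, wA N u * sw N (N - u) := by
    rw [mul_sum, ← sum_sub_distrib]
    exact sum_congr rfl fun u _ => by ring
  rw [e1] at s4
  have h8 := squares8 hN2 0 (by omega)
  simp only [add_zero] at h8
  refine calcC (e := N / L ^ (U + 1)) (s6 := (N : ℝ) ^ (1 / 6 : ℝ)) (c₁ := c₁) hA0 hκ hκ25 hP01.1 hP01.2 l3 hWB0 hL1'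
    (by positivity) (by positivity) hN0.le hc₁0 hc₁1 hc₁2 a2 a1 b2 b1 s1 s2 s3 s4 l1 hcnt ?_
  have f1 : (3 + 2 * A0) * ((N : ℝ) / L ^ (U + 1)) ≤ 1 / 4 * (N / L ^ U) := by
    have e : (3 + 2 * A0) * ((N : ℝ) / L ^ (U + 1)) = (3 + 2 * A0) / L * (N / L ^ U) := by
      rw [pow_succ]
      field_simp
    rw [e]
    refine mul_le_mul_of_nonneg_right ?_ (by positivity)
    rw [div_le_iff₀ hL0]
    linarith
  have f2 : 12 * (N : ℝ) ^ (7 / 8 : ℝ) ≤ 1 / 4 * (N / L ^ U) := by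
    rw [hrp]
    have e : (7 / 8 : ℝ) * L = (1 - 1 / 8) * L := by ring
    rw [e]
    linarith
  have f3 : (N : ℝ) ^ (1 / 6 : ℝ) ≤ 1 / 4 * (N / L ^ U) := by
    rw [hrp]
    have e : (1 / 6 : ℝ) * L = (1 - 5 / 6) * L := by ring
    rw [e]
    linarith
  have f4 : 1 + A0 ≤ 1 / 4 * (N / L ^ U) := by
    rw [sub_self, zero_mul, Real.exp_zero, mul_one] at hs3
    linarith
  linarith

end Pool.Agent.J4.H38.CH
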