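import Mathlib
import Pool.Agent.J4.H38.CH.Base3

/-! Primes `N - n` with `n` and the `n + d` having at most two prime factors, for every even `N` and almost all sets of
shifts in a short interval. -/

set_option autoImplicit false

namespace Pool.Agent.J4.H38.CH

open Finset Filter
open Pool.Agent.Y822
open Pool.Agent.Y822.Low (step_lower')
open Pool.Agent.J4.H38.SR
open Pool.Agent.J4.H38.SR2
open Pool.Agent.J4.H38.SR3
open Pool.Agent.H387R2.Uni (nuT Adm locT CT CT_nonneg)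
open Pool.Agent.H373R2.T7 (pz Vz mem_pz rhoA PerA lam_fund)

open Classical in
/-- the number of the positive integers `n` such that `N - n` is prime, `n` has at most two prime factors, all of them
at least `N ^ (1/8)`, and all `n + d`, `d ∈ D`, have at most two prime factors, all of them at least `N ^ (1/7)` -/
noncomputable def piC (D : Finset ℕ) (N : ℕ) : ℕ :=
  ((Icc 1 N).filter (fun n => (N - n).Prime ∧ (1 < n ∧ n.primeFactorsList.length ≤ 2 ∧
    ∀ q ∈ n.primeFactors, (N : ℝ) ^ (1 / 8 : ℝ) ≤ q) ∧ ∀ d ∈ D, (n + d).primeFactorsList.length ≤ 2 ∧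
    ∀ q ∈ (n + d).primeFactors, (N : ℝ) ^ (1 / 7 : ℝ) ≤ q)).card

/-- the base weight -/
noncomputable def eC (N n : ℕ) : ℝ := eG N n * gC N n

lemma eC_bd (N n : ℕ) : 0 ≤ eC N n ∧ eC N n ≤ 1 :=
  ⟨mul_nonneg (eG_bd N n).1 (gC_bd N n).1, mul_le_one₀ (eG_bd N n).2 (gC_bd N n).1 (gC_bd N n).2⟩

lemma gC_iff (N n : ℕ) : gC N n ≠ 0 → 1 < n ∧ n.primeFactorsList.length ≤ 2 ∧
    ∀ q ∈ n.primeFactors, (N : ℝ) ^ (1 / 8 : ℝ) ≤ q := by
  intro h
  unfold gC at h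
  by_contra hc
  exact h (if_neg hc)

lemma gC_le_ro {N y : ℕ} (hy : (y : ℝ) < (N : ℝ) ^ (1 / 8 : ℝ)) (n : ℕ) : gC N n ≤ ro y n := by
  by_cases h : gC N n = 0
  · rw [h]
    exact ro_nonneg _ _
  · have h1 := gC_iff N n h
    have h2 : ro y n = 1 := by
      unfold ro
      rw [if_pos]
      intro p hp hpy hpd
      have h3 := h1.2.2 p (Nat.mem_primeFactors.2 ⟨hp, hpd, by omega⟩)
      have h4 : (p : ℝ) ≤ y := by exact_mod_cast hpy
      linarith
    rw [h2]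
    exact (gC_bd N n).2

lemma eC_le {N y b : ℕ} (hy : (y : ℝ) < (N : ℝ) ^ (1 / 8 : ℝ)) (hb0 : b ≠ 0) (hb : ∀ p ∈ pz y, p ∣ b + N) :
    ∀ n ∈ Icc 1 N, n ∉ (Icc 1 N).filter (fun n => 1 ≤ N - n ∧ N - n ≤ y) → eC N n ≤ rT {0, b} y n := by
  intro n hn hn0
  have h1 := eG_le hb n hn hn0
  have h2 := gC_le_ro hy n
  unfold rT at h1 ⊢
  rw [prod_singleton] at h1
  rw [prod_pair (Ne.symm hb0), add_zero]
  unfold eC
  rw [mul_comm]
  exact mul_le_mul h2 h1 (eG_bd N n).1 (ro_nonneg _ _)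

lemma WH_full_leC (N y : ℕ) (H : Finset ℕ) :
    ∑ n ∈ Icc 1 N, WH (eC N) (g2 N) (ro y) H H n ≤ piC H N := by
  classical
  unfold piC
  rw [card_filter]
  push_cast
  refine sum_le_sum fun n _ => ?_
  unfold WH
  rw [sdiff_self, bot_eq_empty, prod_empty, mul_one]
  have p0 : 0 ≤ ∏ s ∈ H, g2 N (n + s) := prod_nonneg fun s _ => (g2_bd _ _).1
  have p1 : ∏ s ∈ H, g2 N (n + s) ≤ 1 := prod_le_one (fun s _ => (g2_bd _ _).1) fun s _ => (g2_bd _ _).2
  split_ifs with h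
  · exact mul_le_one₀ (eC_bd N n).2 p0 p1
  · apply le_of_eq
    by_contra hne
    apply h
    have h1 : eC N n ≠ 0 := left_ne_zero_of_mul hne
    have h2 : ∏ s ∈ H, g2 N (n + s) ≠ 0 := right_ne_zero_of_mul hne
    unfold eC at h1
    have h3 : eG N n ≠ 0 := left_ne_zero_of_mul h1
    have h4 : gC N n ≠ 0 := right_ne_zero_of_mul h1
    refine ⟨?_, gC_iff N n h4, fun d hd => ?_⟩
    · unfold eG at h3
      by_contra hc
      exact h3 (if_neg hc)
    · have h5 := (prod_ne_zero_iff.1 h2) d hd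
      unfold g2 at h5
      by_contra hc
      exact h5 (if_neg fun h6 => hc h6.2)

lemma low_calcC {k : ℕ} {cs c1 cp σ L n u V PTy W e x CTy P v : ℝ} (hcs : 0 < cs) (hc1 : 0 < c1)
    (hL : 1 ≤ L) (hn : 0 < n) (hu0 : 0 ≤ u) (hu1 : u ≤ 1)
    (huV : cs / L ≤ u * V) (hvV : c1 / L ≤ v * V) (hPT0 : 0 ≤ PTy) (hc : cp * σ ≤ PTy) (hPT : CTy ≤ 2 * PTy)
    (hW : v * (n / L * (PTy * V ^ (k + 2))) - e ≤ W) (he0 : 0 ≤ e)
    (he : e ≤ 1 / 4 * cs ^ (k + 1) * c1 * cp * σ * (n / L ^ (k + 3)))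
    (hx : (k + 1) * x ≤ 1 / 4 * cs ^ (k + 1) * c1 * cp * σ * (n / L ^ (k + 3)))
    (hP : u ^ (k + 1) * W - (k + 1) * x ≤ P) :
    1 / 4 * (cs ^ (k + 1) * c1) * CTy * (n / L ^ (k + 3)) ≤ P := by
  have hL0 : 0 < L := by linarith
  have hcsp : 0 < cs ^ (k + 1) := by positivity
  obtain ⟨X, hX⟩ : ∃ X, X = n / L ^ (k + 3) := ⟨_, rfl⟩
  have hX0 : 0 < X := by rw [hX]; positivity
  rw [← hX] at he hx ⊢
  have g1 : u ^ (k + 1) * (v * (n / L * (PTy * V ^ (k + 2))) - e) ≤ u ^ (k + 1) * W :=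
    mul_le_mul_of_nonneg_left hW (pow_nonneg hu0 _)
  have g2 : u ^ (k + 1) * e ≤ e := mul_le_of_le_one_left he0 (pow_le_one₀ hu0 hu1)
  have g4 : (cs / L) ^ (k + 1) ≤ (u * V) ^ (k + 1) := pow_le_pow_left₀ (by positivity) huV _
  have g5 : (cs / L) ^ (k + 1) * (c1 / L) ≤ (u * V) ^ (k + 1) * (v * V) :=
    mul_le_mul g4 hvV (by positivity) (le_trans (by positivity) g4)
  have g3 : cs ^ (k + 1) * c1 * PTy * X ≤ u ^ (k + 1) * (v * (n / L * (PTy * V ^ (k + 2)))) := by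
    calc cs ^ (k + 1) * c1 * PTy * X = n / L * PTy * ((cs / L) ^ (k + 1) * (c1 / L)) := by
          rw [hX, div_pow, show k + 3 = (k + 1) + 2 by ring, pow_add L (k + 1) 2]
          field_simp
      _ ≤ n / L * PTy * ((u * V) ^ (k + 1) * (v * V)) := mul_le_mul_of_nonneg_left g5 (by positivity)
      _ = _ := by rw [mul_pow, show k + 2 = (k + 1) + 1 by ring, pow_succ V (k + 1)]; ring
  obtain ⟨q, hq⟩ : ∃ q, q = cs ^ (k + 1) * c1 * X := ⟨_, rfl⟩
  have hq0 : 0 < q := by rw [hq]; positivity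
  have g6 : q * (cp * σ) ≤ q * PTy := mul_le_mul_of_nonneg_left hc hq0.le
  have g7 : q * CTy ≤ q * (2 * PTy) := mul_le_mul_of_nonneg_left hPT hq0.le
  have e1 : cs ^ (k + 1) * c1 * PTy * X = q * PTy := by rw [hq]; ring
  have e2 : 1 / 4 * cs ^ (k + 1) * c1 * cp * σ * X = 1 / 4 * (q * (cp * σ)) := by rw [hq]; ring
  have e3 : 1 / 4 * (cs ^ (k + 1) * c1) * CTy * X = 1 / 4 * (q * CTy) := by rw [hq]; ring
  rw [e1] at g3
  rw [e2] at he hx
  rw [e3]
  have g8 : u ^ (k + 1) * (v * (n / L * (PTy * V ^ (k + 2))) - e) =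
      u ^ (k + 1) * (v * (n / L * (PTy * V ^ (k + 2)))) - u ^ (k + 1) * e := by ring
  rw [g8] at g1
  linarith

/-- **the theorem of Chen with a common prime**, almost all sets of shifts -/
theorem almostC2 : ∃ c : ℝ, 0 < c ∧ ∀ (k : ℕ) (ε : ℝ), 0 < ε → ∃ Λ : ℝ, 0 < Λ ∧ ∀ᶠ N : ℕ in atTop,
    ∀ H : ℕ, Λ * Real.log N ≤ H → H ≤ N → ∀ Bad : Finset (Finset ℕ),
    (∀ D ∈ Bad, D ∈ (Icc 1 H).powersetCard (k + 1) ∧ Adm (pat (sh N (insert 0 D))) ∧
      (piC D N : ℝ) < c ^ (k + 2) * CT (pat (sh N (insert 0 D))) * (N / Real.log N ^ (k + 3))) →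
    (Bad.card : ℝ) ≤ ε * (H : ℝ) ^ (k + 1) := by
  classical
  obtain ⟨c₀', hc₀', STEP⟩ := stepR
  obtain ⟨cC, hcC, hbase⟩ := baseC
  obtain ⟨cz, hcz, VZ⟩ := Vz_sharp
  obtain ⟨c₀, hc₀d⟩ : ∃ c₀ : ℝ, c₀ = min c₀' 1 := ⟨_, rfl⟩
  have hc₀ : 0 < c₀ := by rw [hc₀d]; exact lt_min hc₀' one_pos
  have hc₀1 : c₀ ≤ 1 := by rw [hc₀d]; exact min_le_right _ _
  have hc₀2 : c₀ ≤ c₀' := by rw [hc₀d]; exact min_le_left _ _
  obtain ⟨cs, hcs⟩ : ∃ cs : ℝ, cs = c₀ * cz := ⟨_, rfl⟩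
  have hcs0 : 0 < cs := by rw [hcs]; positivity
  obtain ⟨c1, hc1⟩ : ∃ c1 : ℝ, c1 = cC * cz := ⟨_, rfl⟩
  have hc10 : 0 < c1 := by rw [hc1]; positivity
  refine ⟨min cs c1 / 4, div_pos (lt_min hcs0 hc10) (by norm_num), fun k ε hε => ?_⟩
  have hcpow : (min cs c1 / 4) ^ (k + 2) ≤ 1 / 4 * (cs ^ (k + 1) * c1) := by
    have hm0 : 0 < min cs c1 := lt_min hcs0 hc10
    have h1 : (min cs c1) ^ (k + 1) ≤ cs ^ (k + 1) := pow_le_pow_left₀ hm0.le (min_le_left _ _) _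
    have h2 : (min cs c1 / 4) ^ (k + 2) = (min cs c1) ^ (k + 1) * min cs c1 * (1 / 4 : ℝ) ^ (k + 2) := by
      rw [div_pow, one_div_pow, ← pow_succ]
      ring
    have h3 : (1 / 4 : ℝ) ^ (k + 2) ≤ 1 / 4 := by
      calc (1 / 4 : ℝ) ^ (k + 2) ≤ (1 / 4) ^ 1 := pow_le_pow_of_le_one (by norm_num) (by norm_num) (by omega)
        _ = _ := pow_one _
    rw [h2]
    calc (min cs c1) ^ (k + 1) * min cs c1 * (1 / 4 : ℝ) ^ (k + 2) ≤ cs ^ (k + 1) * c1 * (1 / 4) := by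
          apply mul_le_mul (mul_le_mul h1 (min_le_right _ _) hm0.le (by positivity)) h3 (by positivity)
          positivity
      _ = _ := by ring
  obtain ⟨cp1, hcp1, hlow1⟩ := Pool.Agent.Y822.PT_low (k + 2)
  obtain ⟨cp2, hcp2, hlow2⟩ := pt_low (k + 1)
  obtain ⟨cp, hcp⟩ : ∃ cp : ℝ, cp = min cp1 cp2 := ⟨_, rfl⟩
  have hcp0 : 0 < cp := by rw [hcp]; exact lt_min hcp1 hcp2
  obtain ⟨τ, hτ⟩ : ∃ τ : ℝ, τ = 1 / 4 * cs ^ (k + 1) * c1 * cp := ⟨_, rfl⟩
  have hτ0 : 0 < τ := by rw [hτ]; positivity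
  obtain ⟨δ, hδ⟩ : ∃ δ : ℝ, δ = τ / (4 * (k + 1)) := ⟨_, rfl⟩
  have hδ0 : 0 < δ := by rw [hδ]; positivity
  obtain ⟨Cv, hCv0, havg⟩ := avgRel k
  obtain ⟨κ₀, hκ₀, hbase⟩ := hbase (k + 1)
  obtain ⟨κ, Λ, hκ, hκκ, hκ25, hΛ, hfew⟩ := few_S k 2 (δ := δ)
    (ε' := ε / 2) (κm := κ₀) (Cv := Cv) hδ0 (by linarith) hκ₀ hCv0
  have hbase := hbase κ hκ hκκ (k + 4)
  obtain ⟨N₁, STEP⟩ := STEP κ hκ hκ25
  obtain ⟨M, hM⟩ : ∃ M : ℕ, M = 4 * (k + 3) ^ 3 * (⌈2 / κ⌉₊ + 1) + 3 := ⟨_, rfl⟩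
  refine ⟨max Λ 1, lt_max_of_lt_right one_pos, ?_⟩
  filter_upwards [hbase, hfew, havg, ev_logN (eventually_ge_atTop (max 3 ((M + 2) * (2 / κ)))),
    ev_small (k + 3) (by norm_num : (0 : ℝ) < 1 / 7) 12 hδ0,
    ev_logN (eventually_ge_atTop (1 / τ)), eventually_ge_atTop (max N₁ 3),
    few_top k (by linarith : 0 < ε / 2)]
    with N hm hfew havg hL1' hs8 hLτ hN htop
  intro H hH1' hHN Bad hBad
  have hNN₁ : N₁ ≤ N := (le_max_left _ _).trans hN
  have hN3 : 3 ≤ N := (le_max_right _ _).trans hN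
  have hN2 : 2 ≤ N := by omega
  set L := Real.log N with hLd
  have hL3 : 3 ≤ L := (le_max_left _ _).trans hL1'
  have hL1 : 1 ≤ L := by linarith
  have hLM : (M + 2) * (2 / κ) ≤ L := (le_max_right _ _).trans hL1'
  have hL0 : 0 < L := by linarith
  have hH1 : Λ * L ≤ H := (mul_le_mul_of_nonneg_right (le_max_left _ _) hL0.le).trans hH1'
  have hHL : L ≤ H := by
    have := (mul_le_mul_of_nonneg_right (le_max_right Λ 1) hL0.le).trans hH1'
    linarith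
  have hH3 : 3 ≤ H := by exact_mod_cast hL3.trans hHL
  have hN0 : (0 : ℝ) < N := by positivity
  have hrp : ∀ s : ℝ, (N : ℝ) ^ s = Real.exp (s * L) := by
    intro s
    rw [Real.rpow_def_of_pos hN0, ← hLd, mul_comm]
  -- `N` is even
  rcases Bad.eq_empty_or_nonempty with hemp | ⟨D₀, hD₀⟩
  · rw [hemp, card_empty, Nat.cast_zero]
    positivity
  have hNev : Even N := by
    have h1 := even_of_adm (hBad D₀ hD₀).2.1 (0 + N) (mem_image_of_mem _ (mem_insert_self _ _))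
    rwa [zero_add] at h1
  -- the sifting limit
  obtain ⟨y, hy⟩ : ∃ y : ℕ, y + 1 = ⌈(N : ℝ) ^ κ⌉₊ := by
    have : 0 < ⌈(N : ℝ) ^ κ⌉₊ := Nat.ceil_pos.2 (by positivity)
    exact ⟨⌈(N : ℝ) ^ κ⌉₊ - 1, by omega⟩
  have hya : (y : ℝ) < (N : ℝ) ^ κ := Nat.lt_ceil.1 (by omega)
  have hyb : (N : ℝ) ^ κ ≤ y + 1 := by
    have := Nat.le_ceil ((N : ℝ) ^ κ)
    rw [← hy] at this
    exact_mod_cast this
  have hya' : (y : ℝ) ≤ Real.exp (κ * L) := by rw [← hrp]; exact hya.le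
  have hyb' : Real.exp (κ * L) ≤ y + 1 := by rw [← hrp]; exact hyb
  have hML : (M : ℝ) + 2 ≤ κ / 2 * L := by
    have h1 : (M : ℝ) + 2 = κ / 2 * ((M + 2) * (2 / κ)) := by field_simp
    rw [h1]
    exact mul_le_mul_of_nonneg_left hLM (by positivity)
  obtain ⟨_, _, y3, y4, _, y6⟩ := y_core (M := M) hκ (by omega : 1 ≤ N) hML hya' hyb'
  have hy3 : 3 ≤ y := by omega
  have hy0 : (0 : ℝ) < y := by positivity
  have hy8 : (y : ℝ) < (N : ℝ) ^ (1 / 8 : ℝ) :=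
    hya.trans_le (Real.rpow_le_rpow_of_exponent_le (by exact_mod_cast (by omega : 1 ≤ N)) (by linarith))
  -- the factor of one step
  obtain ⟨u, hu⟩ : ∃ u : ℝ, u = c₀ * κ := ⟨_, rfl⟩
  have hu0 : 0 ≤ u := by rw [hu]; positivity
  have hu1 : u ≤ 1 := by rw [hu]; exact mul_le_one₀ hc₀1 hκ.le (by linarith)
  have hVz0 : 0 < Vz y := Vz_pos' y
  have hly : 0 < Real.log y := Real.log_pos (by exact_mod_cast (by omega : 1 < y))
  have hlyu : Real.log y ≤ κ * L := by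
    rw [← Real.log_exp (κ * L)]
    exact Real.log_le_log hy0 hya'
  have t5 : cz / (κ * L) ≤ Vz y := (div_le_div_of_nonneg_left hcz.le hly hlyu).trans (VZ y hy3)
  have huV : cs / L ≤ u * Vz y := by
    calc cs / L = u * (cz / (κ * L)) := by rw [hcs, hu]; field_simp
      _ ≤ u * Vz y := mul_le_mul_of_nonneg_left t5 hu0
  have hvV : c1 / L ≤ cC * κ * Vz y := by
    calc c1 / L = cC * κ * (cz / (κ * L)) := by rw [hc1]; field_simp
      _ ≤ cC * κ * Vz y := mul_le_mul_of_nonneg_left t5 (by positivity)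
  -- the base point
  obtain ⟨b, hb, hHb⟩ := base_exists N y H hHN
  have hb0 : b ≠ 0 := by omega
  obtain ⟨σ, hσ⟩ : ∃ σ : ℝ, σ = max 1 (VT y {0, b} / Vz y ^ 2) := ⟨_, rfl⟩
  have hσ1 : 1 ≤ σ := by rw [hσ]; exact le_max_left _ _
  have hσV : VT y {0, b} ≤ σ * Vz y ^ 2 := by
    have : VT y {0, b} / Vz y ^ 2 ≤ σ := by rw [hσ]; exact le_max_right _ _
    rwa [div_le_iff₀ (by positivity)] at this
  -- the error of one step
  obtain ⟨X, hX⟩ : ∃ X : ℝ, X = N / L ^ (k + 3) := ⟨_, rfl⟩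
  have hX0 : 0 < X := by rw [hX]; positivity
  have h78 : 12 * (N : ℝ) ^ (6 / 7 : ℝ) ≤ δ * σ * X := by
    have h1 : 12 * (N : ℝ) ^ (6 / 7 : ℝ) ≤ δ * X := by
      rw [hrp, hX]
      have e : (6 / 7 : ℝ) * L = (1 - 1 / 7) * L := by ring
      rw [e]
      exact hs8
    have h2 : δ * X * 1 ≤ δ * X * σ := mul_le_mul_of_nonneg_left hσ1 (by positivity)
    linarith
  have hx0 : 0 ≤ 4 * δ * σ * X := by positivity
  obtain ⟨A, hA⟩ : ∃ A : Finset ℕ, A = (Icc 1 H).filter (fun d => Even d ∧ Lo N d) := ⟨_, rfl⟩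
  have hAm : ∀ d, d ∈ A ↔ (1 ≤ d ∧ d ≤ H) ∧ Even d ∧ Lo N d := by
    intro d
    rw [hA, mem_filter, mem_Icc]
  have hAsub : A ⊆ Icc 1 H := fun d hd => mem_Icc.2 ((hAm d).1 hd).1
  have hsplit := card_filter_add_card_filter_not (s := Bad) (fun D => ∀ d ∈ D, Lo N d)
  have hB2 := htop H hHN (Bad.filter (fun D => ¬ ∀ d ∈ D, Lo N d)) (by
    intro D hD
    rw [mem_filter] at hD
    have h1 := hD.2
    push Not at h1
    obtain ⟨d, hd, h2⟩ := h1
    exact ⟨(hBad D hD.1).1, d, hd, h2⟩)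
  suffices hB1 : ((Bad.filter (fun D => ∀ d ∈ D, Lo N d)).card : ℝ) ≤
      ε / 2 * (H : ℝ) ^ (k + 1) by
    have h3 : (Bad.card : ℝ) = ((Bad.filter (fun D => ∀ d ∈ D, Lo N d)).card : ℝ) +
        ((Bad.filter (fun D => ¬ ∀ d ∈ D, Lo N d)).card : ℝ) := by
      exact_mod_cast hsplit.symm
    rw [h3]
    linarith
  have hbev : Even b := by
    have h1 := hb 2 (mem_pz.2 ⟨by omega, Nat.prime_two⟩)
    rw [← even_iff_two_dvd, Nat.even_add] at h1
    exact h1.2 hNev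
  refine hfew y hya hyb A {0, b} ((Icc 1 N).filter (fun n => 1 ≤ N - n ∧ N - n ≤ y)) (card_pair hb0.symm)
    ⟨0, mem_insert_self _ _⟩ (X0_card N y) ?_ ?_ ?_ (eC N) (eC_bd N) (eC_le hy8 hb0 hb) (g2 N) ?_ H hH1 ?_ σ hσ1 ?_
    _ ?_
  · rw [disjoint_left]
    intro x hx hxA
    have h1 := ((hAm x).1 hxA).1
    rw [mem_insert, mem_singleton] at hx
    omega
  · intro a ha
    exact ((hAm a).1 ha).2.2
  · have hev : ∀ a ∈ A ∪ {0, b}, Even a := by
      intro a ha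
      rcases mem_union.1 ha with h | h
      · exact ((hAm a).1 h).2.1
      · rw [mem_insert, mem_singleton] at h
        rcases h with rfl | rfl
        · exact Even.zero
        · exact hbev
    intro a ha t ht
    exact (hev a ha).add (hev t ht)
  · intro n
    refine ⟨(g2_bd N n).1, g2_le_ro ?_ n⟩
    refine hya.trans_le (Real.rpow_le_rpow_of_exponent_le (by exact_mod_cast (by omega : 1 ≤ N)) ?_)
    linarith
  · refine (card_le_card hAsub).trans ?_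
    rw [Nat.card_Icc, Nat.add_sub_cancel]
  · intro j hj
    have h0 : ∑ S ∈ A.powersetCard j, VT y ({0, b} ∪ S) ≤ ∑ S ∈ (Icc 1 H).powersetCard j, VT y ({0, b} ∪ S) :=
      sum_le_sum_of_subset_of_nonneg (powersetCard_mono hAsub) fun S _ _ => VT_nonneg _ _
    refine h0.trans ((havg H y b hHL hHN (by omega) hb hHb j hj).trans ?_)
    have h1 : Vz y ≤ (2 / κ) / L := by
      refine (Vz_le y (by omega)).trans ?_
      rw [div_le_div_iff₀ hly hL0]
      have h2 := mul_le_mul_of_nonneg_left y4 (by positivity : 0 ≤ 2 / κ)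
      have h3 : 2 / κ * (κ / 2 * L) = L := by field_simp
      rw [← hLd, h3] at h2
      linarith
    have h2 : Vz y ^ (j + 2) ≤ ((2 / κ) / L) ^ (j + 2) := pow_le_pow_left₀ hVz0.le h1 _
    calc Cv * VT y {0, b} * (Vz y * H) ^ j ≤ Cv * (σ * Vz y ^ 2) * (Vz y * H) ^ j :=
          mul_le_mul_of_nonneg_right (mul_le_mul_of_nonneg_left hσV hCv0.le) (by positivity)
      _ = Cv * σ * (H : ℝ) ^ j * Vz y ^ (j + 2) := by rw [mul_pow, pow_add]; ring
      _ ≤ Cv * σ * (H : ℝ) ^ j * ((2 / κ) / L) ^ (j + 2) := mul_le_mul_of_nonneg_left h2 (by positivity)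
      _ = _ := by rw [div_pow]; field_simp
  · intro D hD
    rw [mem_filter] at hD
    obtain ⟨b1, b2, b3⟩ := hBad D hD.1
    have hevD := even_of_adm b2
    have hdev : ∀ d ∈ D, Even d := by
      intro d hd
      have h1 := hevD (d + N) (mem_image_of_mem _ (mem_insert_of_mem hd))
      rw [Nat.even_add] at h1
      exact h1.2 hNev
    refine ⟨?_, fun hg => ?_⟩
    · rw [mem_powersetCard] at b1 ⊢
      exact ⟨fun d hd => (hAm d).2 ⟨mem_Icc.1 (b1.1 hd), hdev d hd, hD.2 d hd⟩, b1.2⟩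
    rw [mem_powersetCard] at b1
    have hD0 : 0 ∉ D := fun h => by
      have := mem_Icc.1 (b1.1 h)
      omega
    have h0 : 0 ∉ sh N (insert 0 D) := zero_notMem_sh (by omega) _
    have hcs' : (sh N (insert 0 D)).card = k + 2 := by rw [card_sh, card_insert_of_notMem hD0, b1.2]
    have hDN : ∀ h ∈ D, h ≤ N := fun h hh => ((mem_Icc.1 (b1.1 hh)).2).trans hHN
    obtain ⟨p1, p2⟩ := hlow1 (pat (sh N (insert 0 D))) (by rw [card_pat h0, hcs']) b2
    have hPT0 := PT_nonneg (pat (sh N (insert 0 D))) y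
    have hcpσ : cp * σ ≤ PT (pat (sh N (insert 0 D))) y := by
      rw [hσ, mul_max_of_nonneg _ _ hcp0.le, max_le_iff]
      constructor
      · rw [mul_one]
        exact (hcp ▸ min_le_left _ _).trans (p1 y)
      · rw [← mul_div_assoc, div_le_iff₀ (by positivity)]
        refine le_trans (mul_le_mul_of_nonneg_right (hcp ▸ min_le_right _ _) (VT_nonneg _ _))
          (hlow2 y N b D b1.2 (by omega) hD0 hb b2)
    have hCP : CT (pat (sh N (insert 0 D))) ≤ 2 * PT (pat (sh N (insert 0 D))) y := by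
      have g1 := CT_up (pat (sh N (insert 0 D))) (2 * N) y (fun t ht => by
        unfold pat sh at ht
        rw [mem_insert, mem_image] at ht
        rcases ht with rfl | ⟨d, hd, rfl⟩
        · omega
        · rcases mem_insert.1 hd with rfl | hd
          · omega
          · have := hDN d hd
            omega) (by omega)
      rw [card_pat h0, hcs'] at g1
      refine g1.trans (mul_le_mul_of_nonneg_right ?_ (PT_nonneg _ _))
      have g6 : 2 * (((k + 2 + 1 : ℕ) : ℝ)) ^ 3 * (Nat.log y (2 * N)) / y ≤ 1 / 2 := by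
        rw [div_le_div_iff₀ hy0 (by norm_num)]
        have g7 : 4 * (k + 3) ^ 3 * Nat.log y (2 * N) ≤ y := by
          refine le_trans ?_ y3
          rw [hM]
          exact (Nat.mul_le_mul_left _ y6).trans (Nat.le_add_right _ _)
        have g8 : (4 * ((k : ℝ) + 3) ^ 3 * Nat.log y (2 * N)) ≤ y := by exact_mod_cast g7
        have g9 : (((k + 2 + 1 : ℕ) : ℝ)) ^ 3 = ((k : ℝ) + 3) ^ 3 := by push_cast; ring
        rw [g9]
        linarith
      calc Real.exp (2 * (((k + 2 + 1 : ℕ) : ℝ)) ^ 3 * (Nat.log y (2 * N)) / y) ≤ Real.exp (1 / 2) :=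
            Real.exp_le_exp.2 g6
        _ ≤ 2 := by
            have h6 : Real.exp (1 / 2) * Real.exp (-(1 / 2)) = 1 := by
              rw [← Real.exp_add]; norm_num
            have h7 := Real.exp_pos (1 / 2)
            have h8 : 1 / 2 ≤ Real.exp (-(1 / 2)) := by
              have := Real.add_one_le_exp (-(1 / 2) : ℝ)
              linarith
            nlinarith
    -- one step
    have hZ : ∀ t ∈ D, ∀ S1 ⊆ D.erase t,
        u * ∑ n ∈ Icc 1 N, WH (eC N) (g2 N) (ro y) (D.erase t) S1 n * ro y (n + t) - 4 * δ * σ * X ≤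
          ∑ n ∈ Icc 1 N, WH (eC N) (g2 N) (ro y) (D.erase t) S1 n * g2 N (n + t) := by
      intro t ht S1 hS1
      set f := WH (eC N) (g2 N) (ro y) (D.erase t) S1 with hf
      have hf01 : ∀ n, 0 ≤ f n ∧ f n ≤ 1 := WH_bd (eC_bd N) (g2_bd N) (ro_bd y) _ _
      have hgood := hg t ht S1 hS1
      rw [← hf, show k + 2 + 1 = k + 3 by ring, ← hX] at hgood
      have hs := STEP N hNN₁ y hyb f (fun n => (hf01 n).1) (fun n => (hf01 n).2) t (hDN t ht)
      have hW0 : 0 ≤ ∑ n ∈ Icc 1 N, f n * ro y (n + t) :=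
        sum_nonneg fun n _ => mul_nonneg (hf01 n).1 (ro_nonneg _ _)
      have h5 : u * ∑ n ∈ Icc 1 N, f n * ro y (n + t) ≤
          c₀' * κ * ∑ n ∈ Icc 1 N, f n * ro y (n + t) := by
        rw [hu]
        exact mul_le_mul_of_nonneg_right (mul_le_mul_of_nonneg_right hc₀2 hκ.le) hW0
      linarith
    have hlower := step_lower' (H := D) hx0 hu0 hu1 hZ D (subset_refl _)
    rw [b1.2] at hlower
    have hmain := hm y hya hyb D hD0 b1.2
    have hWH : ∑ n ∈ Icc 1 N, eG N n * gC N n * ∏ t ∈ D, ro y (n + t) =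
        ∑ n ∈ Icc 1 N, WH (eC N) (g2 N) (ro y) D ∅ n := by
      refine sum_congr rfl fun n _ => ?_
      unfold WH eC
      rw [prod_empty, one_mul, sdiff_empty]
    rw [hWH] at hmain
    have hfull := WH_full_leC N y D
    have hτσ : 1 / 4 * cs ^ (k + 1) * c1 * cp * σ * (N / L ^ (k + 3)) = τ * (σ * X) := by
      rw [hτ, hX]; ring
    have hfin := low_calcC (k := k) (cs := cs) (c1 := c1) (cp := cp) (σ := σ) (L := L) (n := N) (u := u)
      (V := Vz y) (PTy := PT (pat (sh N (insert 0 D))) y)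
      (W := ∑ n ∈ Icc 1 N, WH (eC N) (g2 N) (ro y) D ∅ n)
      (e := N / L ^ (k + 4)) (x := 4 * δ * σ * X) (CTy := CT (pat (sh N (insert 0 D))))
      (P := piC D N) (v := cC * κ) hcs0 hc10 hL1 hN0 hu0 hu1 huV hvV hPT0 hcpσ hCP ?_ (by positivity) ?_ ?_
      (by push_cast at hlower; linarith)
    · have hCT0 : 0 ≤ CT (pat (sh N (insert 0 D))) := CT_nonneg _
      have h9 : (min cs c1 / 4) ^ (k + 2) * CT (pat (sh N (insert 0 D))) * (N / L ^ (k + 3)) ≤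
          1 / 4 * (cs ^ (k + 1) * c1) * CT (pat (sh N (insert 0 D))) * (N / L ^ (k + 3)) := by
        apply mul_le_mul_of_nonneg_right _ (by positivity)
        exact mul_le_mul_of_nonneg_right hcpow hCT0
      linarith
    · exact hmain
    · rw [hτσ]
      have h1 : (N : ℝ) / L ^ (k + 4) = 1 / L * X := by
        rw [hX, pow_succ L (k + 3)]
        field_simp
      rw [h1]
      have h2 : 1 / L ≤ τ := by
        rw [div_le_iff₀ hL0]
        rw [div_le_iff₀ hτ0] at hLτ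
        linarith
      calc 1 / L * X ≤ τ * X := mul_le_mul_of_nonneg_right h2 hX0.le
        _ ≤ τ * (σ * X) := mul_le_mul_of_nonneg_left (le_mul_of_one_le_left hX0.le hσ1) hτ0.le
    · rw [hτσ, hδ]
      apply le_of_eq
      field_simp

end Pool.Agent.J4.H38.CH
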