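import Mathlib
import Pool.Agent.J4.H38.CH.Base1

/-! Project CH, twin version: the forbidden classes of the switched sequence. -/

set_option autoImplicit false

namespace Pool.Agent.J4.H38.CH

open Finset Filter
open Pool.Agent.Y822 (QT perA_QT)
open Pool.Agent.H373R2.T7 (pz Vz mem_pz rhoA PerA)

/-- forbidden classes of the switched sequence `m = u + a`: `u` or `u + w` is divisible by `p` -/
def QC (D : Finset ℕ) (a p m : ℕ) : Prop := m ≡ a [MOD p] ∨ ∃ w ∈ D, m + w ≡ a [MOD p]

open Classical in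
lemma card_tr {p : ℕ} (hp : p.Prime) (s : ℕ) (R R' : ZMod p → Prop) (h : ∀ x, R x → R' (x + s)) :
    ((range p).filter (fun r : ℕ => R (r : ZMod p))).card ≤
      ((range p).filter (fun r : ℕ => R' (r : ZMod p))).card := by
  have hc : ∀ r : ℕ, (((r + s) % p : ℕ) : ZMod p) = r + s := by
    intro r
    rw [ZMod.natCast_mod, Nat.cast_add]
  refine card_le_card_of_injOn (fun r => (r + s) % p) (fun r hr => ?_) fun r hr t ht hrt => ?_
  · rw [mem_coe, mem_filter, mem_range] at hr
    rw [mem_coe, mem_filter, mem_range]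
    refine ⟨Nat.mod_lt _ hp.pos, ?_⟩
    simp only
    rw [hc r]
    exact h _ hr.2
  · rw [mem_coe, mem_filter, mem_range] at hr ht
    simp only at hrt
    have h1 : (((r + s) % p : ℕ) : ZMod p) = (((t + s) % p : ℕ) : ZMod p) := by rw [hrt]
    rw [hc r, hc t] at h1
    have h2 : (r : ZMod p) = t := add_left_injective _ h1
    rw [ZMod.natCast_eq_natCast_iff] at h2
    have h3 : r % p = t % p := h2
    rwa [Nat.mod_eq_of_lt hr.1, Nat.mod_eq_of_lt ht.1] at h3

lemma rho_QC (D : Finset ℕ) (a : ℕ) {p : ℕ} (hp : p.Prime) :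
    rhoA (QC D a) p = rhoA (QT (insert a D)) p := by
  classical
  have hA : ∀ r : ℕ, (p ∣ r ∨ QT (insert a D) p r) ↔
      ((r : ZMod p) = 0 ∨ (r : ZMod p) + a = 0 ∨ ∃ w ∈ D, (r : ZMod p) + w = 0) := by
    intro r
    unfold QT
    rw [← ZMod.natCast_eq_zero_iff]
    refine or_congr Iff.rfl ?_
    constructor
    · rintro ⟨w, hw, h⟩
      rw [← ZMod.natCast_eq_zero_iff, Nat.cast_add] at h
      rcases mem_insert.1 hw with rfl | hw
      · exact Or.inl h
      · exact Or.inr ⟨w, hw, h⟩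
    · rintro (h | ⟨w, hw, h⟩)
      · refine ⟨a, mem_insert_self _ _, ?_⟩
        rw [← ZMod.natCast_eq_zero_iff, Nat.cast_add]
        exact h
      · refine ⟨w, mem_insert_of_mem hw, ?_⟩
        rw [← ZMod.natCast_eq_zero_iff, Nat.cast_add]
        exact h
  have hB : ∀ r : ℕ, (p ∣ r ∨ QC D a p r) ↔
      ((r : ZMod p) = 0 ∨ (r : ZMod p) = a ∨ ∃ w ∈ D, (r : ZMod p) + w = a) := by
    intro r
    unfold QC
    rw [← ZMod.natCast_eq_zero_iff, ← ZMod.natCast_eq_natCast_iff]
    refine or_congr Iff.rfl (or_congr Iff.rfl ?_)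
    refine exists_congr fun w => and_congr Iff.rfl ?_
    rw [← ZMod.natCast_eq_natCast_iff, Nat.cast_add]
  have h1 := rho_add (QC D a) hp
  have h2 := rho_add (QT (insert a D)) hp
  have e1 : (range p).filter (fun r => p ∣ r ∨ QC D a p r) = (range p).filter (fun r : ℕ =>
      (fun x : ZMod p => x = 0 ∨ x = a ∨ ∃ w ∈ D, x + w = a) (r : ZMod p)) :=
    filter_congr fun r _ => hB r
  have e2 : (range p).filter (fun r => p ∣ r ∨ QT (insert a D) p r) = (range p).filter (fun r : ℕ =>
      (fun x : ZMod p => x = 0 ∨ x + a = 0 ∨ ∃ w ∈ D, x + w = 0) (r : ZMod p)) :=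
    filter_congr fun r _ => hA r
  rw [e1] at h1
  rw [e2] at h2
  have hneg : (((p - 1) * a : ℕ) : ZMod p) = -a := by
    rw [Nat.cast_mul, Nat.cast_sub hp.one_lt.le, ZMod.natCast_self]
    push_cast
    ring
  have l1 := card_tr hp ((p - 1) * a) (fun x : ZMod p => x = 0 ∨ x = a ∨ ∃ w ∈ D, x + w = a)
    (fun x : ZMod p => x = 0 ∨ x + a = 0 ∨ ∃ w ∈ D, x + w = 0) (by
      intro x hx
      rw [hneg]
      rcases hx with h | h | ⟨w, hw, h⟩
      · right; left
        rw [h]
        ring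
      · left
        rw [h]
        ring
      · right; right
        refine ⟨w, hw, ?_⟩
        linear_combination h)
  have l2 := card_tr hp a (fun x : ZMod p => x = 0 ∨ x + a = 0 ∨ ∃ w ∈ D, x + w = 0)
    (fun x : ZMod p => x = 0 ∨ x = a ∨ ∃ w ∈ D, x + w = a) (by
      rintro x (h | h | ⟨w, hw, h⟩)
      · right; left
        rw [h, zero_add]
      · left
        exact h
      · right; right
        refine ⟨w, hw, ?_⟩
        linear_combination h)
  have g1 : rhoA (QC D a) p + 1 ≤ rhoA (QT (insert a D)) p + 1 := by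
    rw [h1, h2]
    convert l1
  have g2 : rhoA (QT (insert a D)) p + 1 ≤ rhoA (QC D a) p + 1 := by
    rw [h1, h2]
    convert l2
  omega

lemma perA_QC (D : Finset ℕ) (a k : ℕ) (ha : 1 ≤ a) (h0 : 0 ∉ D) (haD : a ∉ D) (hD : D.card = k) :
    PerA (QT (insert a D)) (k + 2) ∧ PerA (QC D a) (k + 2) := by
  have h1 : 0 ∉ insert a D := by
    rw [mem_insert]
    rintro (h | h)
    · omega
    · exact h0 h
  have h2 : PerA (QT (insert a D)) (k + 2) := perA_QT h1 (k + 1) (by rw [card_insert_of_notMem haD, hD])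
  refine ⟨h2, ⟨?_, ?_⟩⟩
  · intro p n
    unfold QC
    refine or_congr ?_ (exists_congr fun w => and_congr Iff.rfl ?_)
    · exact ⟨fun h => (Nat.mod_modEq n p).trans h, fun h => (Nat.mod_modEq n p).symm.trans h⟩
    · exact ⟨fun h => ((Nat.mod_modEq n p).add_right w).trans h,
        fun h => ((Nat.mod_modEq n p).symm.add_right w).trans h⟩
  · intro p hp
    rw [rho_QC D a hp]
    exact h2.few p hp

end Pool.Agent.J4.H38.CH
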