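import Mathlib
import Pool.Agent.J4.H38.CH.Base3
import Pool.Agent.J4.H38.CH.Tw1

/-! Project CH, twin version: primes `u ≤ N` with `u + a` almost prime and rough `u + d`. -/

set_option autoImplicit false

namespace Pool.Agent.J4.H38.CH

open Finset Filter
open Pool.Agent.W23.DC (tt pr ind)
open Pool.Agent.Y822.F (iu)
open Pool.Agent.J4.H38.SR
open Pool.Agent.J4.H38.SR2
open Pool.Agent.J4.H38.SR3
open Pool.Agent.Y822
open Pool.Agent.H373R2.T7 (pz Vz mem_pz rhoA PerA)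
open Pool.Agent.H387R2.Uni (nuT Adm locT CT)
open Pool.Agent.H442R2.EHI (lis)

/-- the class `-a` -/
def rm (a d : ℕ) : ℕ := if d = 0 then 1 else a * (d - 1)

lemma rm_cop (a : ℕ) : ∀ d p : ℕ, p.Prime → p ∣ d → p ∣ rm a d → p ∣ a := by
  intro d p hp h1 h2
  unfold rm at h2
  split_ifs at h2 with h
  · exact absurd (Nat.dvd_one.1 h2) hp.one_lt.ne'
  · rcases (hp.dvd_mul).1 h2 with h3 | h3
    · exact h3
    · exfalso
      have h4 := (Nat.dvd_sub h1 h3)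
      have h5 : d - (d - 1) = 1 := by omega
      rw [h5] at h4
      exact absurd (Nat.dvd_one.1 h4) hp.one_lt.ne'

lemma rm_iff {a d u : ℕ} (hd : 1 ≤ d) : u ≡ rm a d [MOD d] ↔ d ∣ u + a := by
  unfold rm
  rw [if_neg (by omega)]
  have h1 : a * (d - 1) + a = a * d := by
    obtain ⟨e, rfl⟩ : ∃ e, d = e + 1 := ⟨d - 1, by omega⟩
    rw [Nat.add_sub_cancel]
    ring
  constructor
  · intro h2
    have h3 : u + a ≡ a * (d - 1) + a [MOD d] := h2.add_right a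
    rw [h1] at h3
    exact (Nat.modEq_zero_iff_dvd).1 (h3.trans ((Nat.modEq_zero_iff_dvd).2 (dvd_mul_left d a)))
  · intro h2
    have h3 : u + a ≡ a * (d - 1) + a [MOD d] := by
      rw [h1]
      exact ((Nat.modEq_zero_iff_dvd).2 h2).trans ((Nat.modEq_zero_iff_dvd).2 (dvd_mul_left d a)).symm
    exact Nat.ModEq.add_right_cancel' a h3

lemma sum_TwA (Q : ℕ → ℕ → Prop) (N y a : ℕ) {d : ℕ} (hd : 1 ≤ d) :
    ∑ n ∈ Om Q N y, wA N n * ind (n + a) d = Sq (wA N) Q N y (rm a d) d := by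
  classical
  unfold Sq Om
  rw [← filter_filter]
  conv_rhs => rw [sum_filter]
  refine sum_congr rfl fun n _ => ?_
  unfold ind
  by_cases h2 : d ∣ n + a
  · rw [if_pos h2, if_pos ((rm_iff hd).2 h2), mul_one]
  · rw [if_neg h2, if_neg (fun h3 => h2 ((rm_iff hd).1 h3)), mul_zero]

lemma sum_TwB (Q : ℕ → ℕ → Prop) (N y a d : ℕ) :
    ∑ n ∈ Om Q N y, wB N n * ind ((a - n) + (n - a)) d = Sq (wB N) Q N y a d := by
  classical
  unfold Sq Om
  rw [← filter_filter]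
  conv_rhs => rw [sum_filter]
  refine sum_congr rfl fun n _ => ?_
  unfold ind
  by_cases h2 : d ∣ (a - n) + (n - a)
  · rw [if_pos h2, if_pos ((dvd_mB a n d).1 h2), mul_one]
  · rw [if_neg h2, if_neg (fun h3 => h2 ((dvd_mB a n d).2 h3)), mul_zero]

/-- the conditions on a prime `u` are those on `u + a` -/
lemma Om_tw {N y u a : ℕ} {D : Finset ℕ} (hu : u ∈ Om (QT (insert a D)) N y) (huN : u + a ≤ N) :
    1 ≤ u ∧ u + a ∈ Om (QC D a) N y ∧ Ro y (u + a) ∧ ∀ t ∈ D, Ro y (u + t) := by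
  classical
  unfold Om at hu ⊢
  rw [mem_filter, mem_Icc] at hu ⊢
  obtain ⟨⟨h1, _⟩, h2⟩ := hu
  have h0 : ∀ p ∈ pz y, ¬ p ∣ u + a := fun p hp hd => (h2 p hp).2 ⟨a, mem_insert_self _ _, hd⟩
  have ht : ∀ t ∈ D, ∀ p ∈ pz y, ¬ p ∣ u + t := fun t ht p hp hd => (h2 p hp).2 ⟨t, mem_insert_of_mem ht, hd⟩
  have hc : ∀ p m : ℕ, m + a ≡ a [MOD p] → p ∣ m := by
    intro p m h
    have h3 : m + a ≡ 0 + a [MOD p] := by rw [zero_add]; exact h
    exact (Nat.modEq_zero_iff_dvd).1 (Nat.ModEq.add_right_cancel' a h3)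
  refine ⟨h1, ⟨⟨by omega, by omega⟩, fun p hp => ⟨h0 p hp, ?_⟩⟩, ?_, ?_⟩
  · rintro (h | ⟨w, hw, h⟩)
    · exact (h2 p hp).1 (hc p u h)
    · have e : u + a + w = u + w + a := by ring
      rw [e] at h
      exact ht w hw p hp (hc p _ h)
  · intro p hp hpy
    exact h0 p (mem_pz.2 ⟨hpy, hp⟩)
  · intro t htt p hp hpy
    exact ht t htt p (mem_pz.2 ⟨hpy, hp⟩)

open Classical in
/-- the switching -/
lemma switchT {N y a : ℕ} {κ : ℝ} {D : Finset ℕ} (hN : 2 ≤ N) (ha : 1 ≤ a) :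
    ∑ u ∈ Om (QT (insert a D)) N y, wA N u * sw N (u + a) ≤
      ∑ m ∈ Om (QC D a) N y, wB N m * iu N κ (1 / 6) ((a - m) + (m - a)) + ((N : ℝ) ^ (1 / 6 : ℝ) + a) := by
  obtain ⟨A, hA⟩ : ∃ A, A = Om (QT (insert a D)) N y := ⟨_, rfl⟩
  obtain ⟨S1, hS1⟩ : ∃ S1, S1 = A.filter (fun u => (u.Prime ∧ u + a ≤ N) ∧ sw N (u + a) ≠ 0 ∧
    (N : ℝ) ^ (1 / 6 : ℝ) ≤ u) := ⟨_, rfl⟩
  rw [← hA]
  have h1 : ∑ u ∈ A, wA N u * sw N (u + a) ≤ (S1.card : ℝ) +
      ((A.filter (fun u : ℕ => (u : ℝ) < (N : ℝ) ^ (1 / 6 : ℝ))).card : ℝ) +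
      ((A.filter (fun u : ℕ => u ≤ N ∧ N < u + a)).card : ℝ) := by
    rw [hS1, card_filter, card_filter, card_filter]
    push_cast
    rw [← sum_add_distrib, ← sum_add_distrib]
    refine sum_le_sum fun u _ => ?_
    have hs := sw_bd N (u + a)
    have i1 : (0 : ℝ) ≤ if (u.Prime ∧ u + a ≤ N) ∧ sw N (u + a) ≠ 0 ∧ (N : ℝ) ^ (1 / 6 : ℝ) ≤ u then 1 else 0 := by
      split_ifs <;> norm_num
    have i2 : (0 : ℝ) ≤ if (u : ℝ) < (N : ℝ) ^ (1 / 6 : ℝ) then 1 else 0 := by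
      split_ifs <;> norm_num
    have i3 : (0 : ℝ) ≤ if u ≤ N ∧ N < u + a then 1 else 0 := by
      split_ifs <;> norm_num
    by_cases h1 : u.Prime ∧ u ≤ N
    · have h2 : wA N u = 1 := by unfold wA; rw [if_pos h1]
      rw [h2, one_mul]
      by_cases h3 : sw N (u + a) = 0
      · rw [h3]
        positivity
      · by_cases h5 : N < u + a
        · rw [if_pos (show u ≤ N ∧ N < u + a from ⟨h1.2, h5⟩)]
          linarith
        · by_cases h4 : (N : ℝ) ^ (1 / 6 : ℝ) ≤ u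
          · rw [if_pos (show (u.Prime ∧ u + a ≤ N) ∧ sw N (u + a) ≠ 0 ∧ (N : ℝ) ^ (1 / 6 : ℝ) ≤ u from
              ⟨⟨h1.1, by omega⟩, h3, h4⟩)]
            linarith
          · rw [if_pos (not_le.1 h4)]
            linarith
    · have h2 : wA N u = 0 := by unfold wA; rw [if_neg h1]
      rw [h2, zero_mul]
      positivity
  have h2 : ((A.filter (fun u : ℕ => (u : ℝ) < (N : ℝ) ^ (1 / 6 : ℝ))).card : ℝ) ≤ (N : ℝ) ^ (1 / 6 : ℝ) := by
    have h3 : A.filter (fun u : ℕ => (u : ℝ) < (N : ℝ) ^ (1 / 6 : ℝ)) ⊆ Icc 1 ⌊(N : ℝ) ^ (1 / 6 : ℝ)⌋₊ := by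
      intro u hu
      rw [mem_filter, hA] at hu
      unfold Om at hu
      rw [mem_filter, mem_Icc] at hu
      rw [mem_Icc]
      exact ⟨hu.1.1.1, Nat.le_floor hu.2.le⟩
    have h4 := card_le_card h3
    rw [Nat.card_Icc, Nat.add_sub_cancel] at h4
    calc ((A.filter (fun u : ℕ => (u : ℝ) < (N : ℝ) ^ (1 / 6 : ℝ))).card : ℝ) ≤
          (⌊(N : ℝ) ^ (1 / 6 : ℝ)⌋₊ : ℝ) := by exact_mod_cast h4
      _ ≤ _ := Nat.floor_le (by positivity)
  have h4 : ((A.filter (fun u : ℕ => u ≤ N ∧ N < u + a)).card : ℝ) ≤ a := by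
    have h5 : A.filter (fun u : ℕ => u ≤ N ∧ N < u + a) ⊆ Icc (N + 1 - a) N := by
      intro u hu
      rw [mem_filter] at hu
      rw [mem_Icc]
      omega
    have h6 := card_le_card h5
    rw [Nat.card_Icc] at h6
    have h7 : (A.filter (fun u : ℕ => u ≤ N ∧ N < u + a)).card ≤ a := by omega
    exact_mod_cast h7
  have h3 : (S1.card : ℝ) ≤ ∑ m ∈ Om (QC D a) N y, wB N m * iu N κ (1 / 6) ((a - m) + (m - a)) := by
    have hmem : ∀ u ∈ S1, u + a ∈ Om (QC D a) N y ∧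
        (1 : ℝ) ≤ wB N (u + a) * iu N κ (1 / 6) ((a - (u + a)) + (u + a - a)) := by
      intro u hu
      rw [hS1, mem_filter] at hu
      obtain ⟨h1, ⟨h2, h3⟩, h4, h5⟩ := hu
      rw [hA] at h1
      obtain ⟨_, g2, _, _⟩ := Om_tw h1 h3
      refine ⟨g2, ?_⟩
      have g3 := wB_ge hN (m := u + a) (by omega) (by omega) h4
      have g4 : (a - (u + a)) + (u + a - a) = u := by omega
      rw [g4]
      have g5 : iu N κ (1 / 6) u = 1 := by
        unfold iu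
        rw [if_pos]
        intro p hp hd
        unfold pr at hp
        rw [mem_filter] at hp
        have g6 := (Nat.prime_dvd_prime_iff_eq hp.2.1 h2).1 hd
        rw [g6] at hp
        have g7 := (Pool.Agent.W23.DC.le_tt_iff hN h2.pos (u := 1 / 6)).2 h5
        linarith [hp.2.2.2]
      rw [g5, mul_one]
      exact g3
    have hinj : Set.InjOn (fun u => u + a) (S1 : Set ℕ) := fun u _ v _ h => by
      simp only at h
      omega
    calc (S1.card : ℝ) = ∑ _u ∈ S1, (1 : ℝ) := by rw [sum_const, nsmul_eq_mul, mul_one]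
      _ ≤ ∑ u ∈ S1, wB N (u + a) * iu N κ (1 / 6) ((a - (u + a)) + (u + a - a)) :=
          sum_le_sum fun u hu => (hmem u hu).2
      _ = ∑ m ∈ S1.image (fun u => u + a), wB N m * iu N κ (1 / 6) ((a - m) + (m - a)) := by
          rw [sum_image hinj]
      _ ≤ _ := by
          refine sum_le_sum_of_subset_of_nonneg ?_ fun m _ _ => mul_nonneg (wB_bd N m).1 (iu_bd _ _ _ _).1
          intro m hm
          obtain ⟨u, hu, rfl⟩ := mem_image.1 hm
          exact (hmem u hu).1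
  linarith

open Classical in
/-- the weighted sum is at most the number of the solutions -/
lemma weights_leT {N y a : ℕ} {κ : ℝ} {D : Finset ℕ} (hN : 257 ≤ N) (ha : 1 ≤ a) (hyb : (N : ℝ) ^ κ ≤ y + 1) :
    ∑ u ∈ Om (QT (insert a D)) N y, wA N u * (Wk N κ (u + a) - 1 / 2 * sw N (u + a)) ≤
      ∑ n ∈ Icc 1 N, eP n * gC N (n + a) * ∏ t ∈ D, ro y (n + t) + (∑ n ∈ Icc 1 N, bq8 N (n + a) + a) + 1 := by
  obtain ⟨A, hA⟩ : ∃ A, A = Om (QT (insert a D)) N y := ⟨_, rfl⟩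
  rw [← hA]
  obtain ⟨F, hF⟩ : ∃ F : ℕ → ℝ, F = fun n => eP n * gC N (n + a) * ∏ t ∈ D, ro y (n + t) + bq8 N (n + a) +
    (if N < n + a then 1 else 0) := ⟨_, rfl⟩
  have hF0 : ∀ n, 0 ≤ F n := by
    intro n
    rw [hF]
    have h1 := eP_bd n
    have h2 := gC_bd N (n + a)
    have h3 : 0 ≤ ∏ t ∈ D, ro y (n + t) := prod_nonneg fun t _ => ro_nonneg _ _
    have h4 := bq8_nonneg N (n + a)
    have h5 : (0 : ℝ) ≤ if N < n + a then 1 else 0 := by split_ifs <;> norm_num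
    have h6 := mul_nonneg (mul_nonneg h1.1 h2.1) h3
    simp only
    linarith
  obtain ⟨S, hS⟩ : ∃ S, S = A.filter (fun u => u.Prime ∧ u ≤ N) := ⟨_, rfl⟩
  have h1 : ∑ u ∈ A, wA N u * (Wk N κ (u + a) - 1 / 2 * sw N (u + a)) =
      ∑ u ∈ S, (Wk N κ (u + a) - 1 / 2 * sw N (u + a)) := by
    rw [hS, sum_filter]
    refine sum_congr rfl fun u _ => ?_
    unfold wA
    split_ifs
    · rw [one_mul]
    · rw [zero_mul]
  have hSm : ∀ u ∈ S, (1 ≤ u ∧ u ≤ N) ∧ Wk N κ (u + a) - 1 / 2 * sw N (u + a) ≤ F u := by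
    intro u hu
    rw [hS, mem_filter, hA] at hu
    obtain ⟨h2, h3, h4⟩ := hu
    refine ⟨⟨h3.pos, h4⟩, ?_⟩
    have h5 := gC_bd N (u + a)
    have h6 := bq8_nonneg N (u + a)
    have h7 := eP_bd u
    have h8 : 0 ≤ ∏ t ∈ D, ro y (u + t) := prod_nonneg fun t _ => ro_nonneg _ _
    by_cases hN' : N < u + a
    · rw [hF]
      simp only
      rw [if_pos hN']
      have h9 := Wk_le_one N κ (u + a)
      have h10 := sw_bd N (u + a)
      have h11 := mul_nonneg (mul_nonneg h7.1 h5.1) h8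
      linarith
    · obtain ⟨_, _, g2, g3⟩ := Om_tw h2 (by omega)
      have e1 : eP u = 1 := by
        unfold eP
        rw [if_pos h3]
      have e2 : ∏ t ∈ D, ro y (u + t) = 1 := prod_eq_one fun t ht => by
        unfold ro
        rw [if_pos (g3 t ht)]
      have e3 : ro y (u + a) = 1 := by
        unfold ro
        rw [if_pos g2]
      rw [hF]
      simp only
      rw [e1, e2, one_mul, mul_one, if_neg hN', add_zero]
      have h8 := ptwC hN hyb (m := u + a) (by have := h3.pos; omega) (by omega)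
      rwa [e3, one_mul] at h8
  rw [h1]
  calc ∑ u ∈ S, (Wk N κ (u + a) - 1 / 2 * sw N (u + a)) ≤ ∑ u ∈ S, F u :=
        sum_le_sum fun u hu => (hSm u hu).2
    _ ≤ ∑ n ∈ Icc 1 N, F n := by
        refine sum_le_sum_of_subset_of_nonneg ?_ fun m _ _ => hF0 m
        intro m hm
        exact mem_Icc.2 (hSm m hm).1
    _ ≤ _ := by
        rw [hF, sum_add_distrib, sum_add_distrib]
        have h9 : ∑ n ∈ Icc 1 N, (if N < n + a then (1 : ℝ) else 0) ≤ a := by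
          rw [← sum_filter, sum_const, nsmul_eq_mul, mul_one]
          have h5 : (Icc 1 N).filter (fun u : ℕ => N < u + a) ⊆ Icc (N + 1 - a) N := by
            intro u hu
            rw [mem_filter, mem_Icc] at hu
            rw [mem_Icc]
            omega
          have h6 := card_le_card h5
          rw [Nat.card_Icc] at h6
          have h7 : ((Icc 1 N).filter (fun u : ℕ => N < u + a)).card ≤ a := by omega
          exact_mod_cast h7
        linarith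

/-- **Chen's theorem for `u + a` with rough shifts** -/
theorem baseT : ∃ cC : ℝ, 0 < cC ∧ ∀ k : ℕ, ∃ κ₀ : ℝ, 0 < κ₀ ∧ ∀ κ : ℝ, 0 < κ → κ ≤ κ₀ →
    ∀ U a : ℕ, 1 ≤ a → ∀ᶠ N : ℕ in atTop, ∀ y : ℕ, (y : ℝ) < (N : ℝ) ^ κ → (N : ℝ) ^ κ ≤ y + 1 →
    ∀ D : Finset ℕ, 0 ∉ D → a ∉ D → D.card = k →
      cC * κ * (N / Real.log N * (PT (pat (insert a D)) y * Vz y ^ (k + 1))) - N / Real.log N ^ U ≤
        ∑ n ∈ Icc 1 N, eP n * gC N (n + a) * ∏ t ∈ D, ro y (n + t) := by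
  classical
  obtain ⟨A0, hA0, hsie⟩ := sieveC
  refine ⟨A0 / 250, by positivity, fun k => ?_⟩
  obtain ⟨c₁, hc₁⟩ : ∃ c₁, c₁ = min A0 1 / 10000 := ⟨_, rfl⟩
  have hc₁0 : 0 < c₁ := by rw [hc₁]; exact div_pos (lt_min hA0 one_pos) (by norm_num)
  have hc₁1 : c₁ ≤ A0 / 10000 := by
    rw [hc₁]
    exact div_le_div_of_nonneg_right (min_le_left _ _) (by norm_num)
  have hc₁2 : c₁ ≤ 1 / 10000 := by
    rw [hc₁]
    exact div_le_div_of_nonneg_right (min_le_right _ _) (by norm_num)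
  obtain ⟨κ₀, hκ₀, hlev⟩ := lvl (k + 2) (by omega) c₁ hc₁0 (by linarith)
  refine ⟨min κ₀ (1 / 25), lt_min hκ₀ (by norm_num), fun κ hκ hκκ U a ha => ?_⟩
  have hκ25 : κ ≤ 1 / 25 := hκκ.trans (min_le_right _ _)
  obtain ⟨N₀, hsie⟩ := hsie κ hκ hκ25
  obtain ⟨U', hlev⟩ := hlev κ hκ (hκκ.trans (min_le_left _ _)) (U + 1)
  filter_upwards [hlev, bva U', bvb U', cnt, eventually_ge_atTop (max (max N₀ 257) a),
    ev_logN (eventually_ge_atTop (max 1 (4 * (3 + 2 * A0)))), ev_logN (eventually_ge_atTop ((3 + 2) * (2 / κ))),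
    ev_small U (by norm_num : (0 : ℝ) < 1 / 8) 48 one_pos, ev_small U (by norm_num : (0 : ℝ) < 5 / 6) 4 one_pos,
    ev_small U (by norm_num : (0 : ℝ) < 1) (4 * (1 + A0 + 2 * a)) one_pos]
    with N hlev hbva hbvb hcnt hN hL1 hLM hs1 hs2 hs3
  intro y hy1 hy2 D h0 haD hD
  have hNN₀ : N₀ ≤ N := ((le_max_left _ _).trans (le_max_left _ _)).trans hN
  have hN257 : 257 ≤ N := ((le_max_right _ _).trans (le_max_left _ _)).trans hN
  have haN : a ≤ N := (le_max_right _ _).trans hN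
  have hN2 : 2 ≤ N := by omega
  have hN0 : (0 : ℝ) < N := by positivity
  obtain ⟨L, hLd⟩ : ∃ L, L = Real.log N := ⟨_, rfl⟩
  have hrp : ∀ s : ℝ, (N : ℝ) ^ s = Real.exp (s * L) := by
    intro s
    rw [Real.rpow_def_of_pos hN0, ← hLd, mul_comm]
  rw [← hLd] at hlev hbva hbvb hcnt hL1 hLM hs1 hs2 hs3 ⊢
  have hL1' : 1 ≤ L := (le_max_left _ _).trans hL1
  have hLA : 4 * (3 + 2 * A0) ≤ L := (le_max_right _ _).trans hL1
  have hL0 : 0 < L := by linarith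
  obtain ⟨l1, l2, l3⟩ := lis_bd hN2
  rw [← hLd] at l1
  obtain ⟨WB, hWB⟩ : ∃ WB, WB = ∑ n ∈ Icc 1 (2 * N), wB N n := ⟨_, rfl⟩
  rw [← hWB] at hbvb hcnt
  have hWB0 : 0 ≤ WB := by rw [hWB]; exact sum_nonneg fun n _ => (wB_bd N n).1
  have hNL : (N : ℝ) / L ≤ N := div_le_self hN0.le hL1'
  have hWB2 : WB ≤ 2 * N := by linarith
  obtain ⟨P, hP⟩ : ∃ P, P = Pq (QT (insert a D)) y := ⟨_, rfl⟩
  have hPB : Pq (QC D a) y = P := by
    rw [hP]
    unfold Pq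
    refine prod_congr rfl fun p hp => ?_
    rw [rho_QC D a (mem_pz.1 hp).2]
  have hP01 := Pq_bd (QT (insert a D)) y
  rw [← hP] at hP01
  have h0T : 0 ∉ insert a D := by
    rw [mem_insert]
    rintro (h | h)
    · omega
    · exact h0 h
  have hPT : PT (pat (insert a D)) y * Vz y ^ (k + 1) = P := by
    rw [hP]
    unfold Pq
    rw [prod_rho h0T (k + 1) (by rw [card_insert_of_notMem haD, hD])]
  rw [hPT]
  have hy8 : (y : ℝ) < (N : ℝ) ^ (1 / 8 : ℝ) :=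
    hy1.trans_le (Real.rpow_le_rpow_of_exponent_le (by exact_mod_cast (by omega : 1 ≤ N)) (by linarith))
  obtain ⟨q1, q2⟩ := perA_QC D a k ha h0 haD hD
  obtain ⟨a1, a2⟩ := hlev y hy1 hy2 (wA N) (lis N) (wA_bd N) (wA_ro N y) l3 l2 hbva (QT (insert a D))
    q1 a ha haN (rm a) (rm_cop a)
  obtain ⟨b1, b2⟩ := hlev y hy1 hy2 (wB N) WB (wB_bd N) (wB_ro hy8) hWB0 hWB2 hbvb (QC D a) q2 a
    ha haN (fun _ => a) (fun _ _ _ _ h => h)
  rw [← hP] at a1 a2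
  rw [hPB] at b1 b2
  have hXA0 : 0 ≤ Sq (wA N) (QT (insert a D)) N y 1 1 := by
    unfold Sq
    exact sum_nonneg fun n _ => (wA_bd N n).1
  have hXB0 : 0 ≤ Sq (wB N) (QC D a) N y 1 1 := by
    unfold Sq
    exact sum_nonneg fun n _ => (wB_bd N n).1
  have s1 := (hsie N hNN₀ (Om (QT (insert a D)) N y) (wA N) (fun u => u + a)
    (Sq (wA N) (QT (insert a D)) N y 1 1) (fun n _ => (wA_bd N n).1) hXA0).1
  have s2 := (hsie N hNN₀ (Om (QC D a) N y) (wB N) (fun u => (a - u) + (u - a))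
    (Sq (wB N) (QC D a) N y 1 1) (fun n _ => (wB_bd N n).1) hXB0).2
  have es1 : ∑ d ∈ FC N κ, |(∑ n ∈ Om (QT (insert a D)) N y, wA N n * ind (n + a) d) -
      Sq (wA N) (QT (insert a D)) N y 1 1 * (1 / (d : ℝ))| =
      ∑ d ∈ FC N κ, |Sq (wA N) (QT (insert a D)) N y (rm a d) d -
        Sq (wA N) (QT (insert a D)) N y 1 1 * (1 / (d : ℝ))| := by
    refine sum_congr rfl fun d hd => ?_
    unfold FC at hd
    rw [mem_filter, mem_Icc] at hd
    rw [sum_TwA _ N y a hd.1.1]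
  rw [es1] at s1
  simp only [sum_TwB] at s2
  have s3 := switchT (κ := κ) (D := D) (y := y) hN2 ha
  have s4 := weights_leT (κ := κ) (D := D) hN257 ha hy2
  have e1 : ∑ u ∈ Om (QT (insert a D)) N y, wA N u * (Wk N κ (u + a) - 1 / 2 * sw N (u + a)) =
      ∑ u ∈ Om (QT (insert a D)) N y, wA N u * Wk N κ (u + a) -
        1 / 2 * ∑ u ∈ Om (QT (insert a D)) N y, wA N u * sw N (u + a) := by
    rw [mul_sum, ← sum_sub_distrib]
    exact sum_congr rfl fun u _ => by ring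
  rw [e1] at s4
  have h8 := squares8 hN2 a haN
  have ha0 : (0 : ℝ) ≤ a := Nat.cast_nonneg a
  refine calcC (e := N / L ^ (U + 1)) (s6 := (N : ℝ) ^ (1 / 6 : ℝ) + a) (c₁ := c₁) hA0 hκ hκ25 hP01.1 hP01.2 l3 hWB0
    hL1' (by positivity) (by positivity) hN0.le hc₁0 hc₁1 hc₁2 a2 a1 b2 b1 s1 s2 s3 s4 l1 hcnt ?_
  have f1 : (3 + 2 * A0) * ((N : ℝ) / L ^ (U + 1)) ≤ 1 / 4 * (N / L ^ U) := by
    have e : (3 + 2 * A0) * ((N : ℝ) / L ^ (U + 1)) = (3 + 2 * A0) / L * (N / L ^ U) := by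
      rw [pow_succ]
      field_simp
    rw [e]
    refine mul_le_mul_of_nonneg_right ?_ (by positivity)
    rw [div_le_iff₀ hL0]
    linarith
  have f2 : 12 * (N : ℝ) ^ (7 / 8 : ℝ) ≤ 1 / 4 * (N / L ^ U) := by
    rw [hrp]
    have e : (7 / 8 : ℝ) * L = (1 - 1 / 8) * L := by ring
    rw [e]
    linarith
  have f3 : (N : ℝ) ^ (1 / 6 : ℝ) ≤ 1 / 4 * (N / L ^ U) := by
    rw [hrp]
    have e : (1 / 6 : ℝ) * L = (1 - 5 / 6) * L := by ring
    rw [e]
    linarith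
  have f4 : 1 + A0 + 2 * a ≤ 1 / 4 * (N / L ^ U) := by
    rw [sub_self, zero_mul, Real.exp_zero, mul_one] at hs3
    linarith
  linarith

end Pool.Agent.J4.H38.CH
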