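import Mathlib
import Pool.Agent.J4.H38.CH.Fin
import Pool.Agent.J4.H38.CH.Tw2
import Pool.Agent.J4.H38.SR3.Fix

/-! Project CH, twin version: primes `p` with `p + a` in `P_2` for one fixed `a` and `p + d` in `P_2` for almost all sets
of further shifts. -/

set_option autoImplicit false

namespace Pool.Agent.J4.H38.CH

open Finset Filter
open Pool.Agent.Y822
open Pool.Agent.Y822.Low (step_lower')
open Pool.Agent.J4.H38.SR
open Pool.Agent.J4.H38.SR2
open Pool.Agent.J4.H38.SR3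
open Pool.Agent.H387R2.Uni (nuT Adm locT CT CT_nonneg)
open Pool.Agent.H373R2.T7 (pz Vz mem_pz)

lemma pow_calc {cs c1 : ℝ} (hcs0 : 0 < cs) (hc10 : 0 < c1) (k : ℕ) :
    (min cs c1 / 4) ^ (k + 2) ≤ 1 / 4 * (cs ^ (k + 1) * c1) := by
  have hm0 : 0 < min cs c1 := lt_min hcs0 hc10
  have h1 : (min cs c1) ^ (k + 1) ≤ cs ^ (k + 1) := pow_le_pow_left₀ hm0.le (min_le_left _ _) _
  have h2 : (min cs c1 / 4) ^ (k + 2) = (min cs c1) ^ (k + 1) * min cs c1 * (1 / 4 : ℝ) ^ (k + 2) := by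
    rw [div_pow, one_div_pow, ← pow_succ]
    ring
  have h3 : (1 / 4 : ℝ) ^ (k + 2) ≤ 1 / 4 := by
    calc (1 / 4 : ℝ) ^ (k + 2) ≤ (1 / 4) ^ 1 := pow_le_pow_of_le_one (by norm_num) (by norm_num) (by omega)
      _ = _ := pow_one _
  rw [h2]
  calc (min cs c1) ^ (k + 1) * min cs c1 * (1 / 4 : ℝ) ^ (k + 2) ≤ cs ^ (k + 1) * c1 * (1 / 4) := by
        apply mul_le_mul (mul_le_mul h1 (min_le_right _ _) hm0.le (by positivity)) h3 (by positivity)
        positivity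
    _ = _ := by ring

open Classical in
/-- the number of primes `p ≤ N` such that `p + a` has at most two prime factors, all of them at least
`N ^ (1/8)`, and all `p + h`, `h ∈ D`, have at most two prime factors, all of them at least `N ^ (1/7)` -/
noncomputable def piT (a : ℕ) (D : Finset ℕ) (N : ℕ) : ℕ :=
  ((Icc 1 N).filter (fun p => p.Prime ∧ ((p + a).primeFactorsList.length ≤ 2 ∧
    ∀ q ∈ (p + a).primeFactors, (N : ℝ) ^ (1 / 8 : ℝ) ≤ q) ∧
    ∀ h ∈ D, (p + h).primeFactorsList.length ≤ 2 ∧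
      ∀ q ∈ (p + h).primeFactors, (N : ℝ) ^ (1 / 7 : ℝ) ≤ q)).card

lemma WH_full_leT (a N y : ℕ) (D : Finset ℕ) :
    ∑ n ∈ Icc 1 N, WH (fun n => eP n * gC N (n + a)) (g2 N) (ro y) D D n ≤ piT a D N := by
  classical
  unfold piT
  rw [card_filter]
  push_cast
  refine sum_le_sum fun n _ => ?_
  unfold WH
  rw [sdiff_self, bot_eq_empty, prod_empty, mul_one]
  show eP n * gC N (n + a) * ∏ s ∈ D, g2 N (n + s) ≤ _
  have p0 : 0 ≤ ∏ s ∈ D, g2 N (n + s) := prod_nonneg fun s _ => (g2_bd _ _).1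
  have p1 : ∏ s ∈ D, g2 N (n + s) ≤ 1 := prod_le_one (fun s _ => (g2_bd _ _).1) fun s _ => (g2_bd _ _).2
  have e0 : 0 ≤ eP n * gC N (n + a) := mul_nonneg (eP_bd n).1 (gC_bd N _).1
  have e1 : eP n * gC N (n + a) ≤ 1 := mul_le_one₀ (eP_bd n).2 (gC_bd N _).1 (gC_bd N _).2
  by_cases hp : n.Prime
  swap
  · have h4 : eP n = 0 := by unfold eP; rw [if_neg hp]
    rw [h4, zero_mul, zero_mul]
    split_ifs <;> norm_num
  by_cases ha : (n + a).primeFactorsList.length ≤ 2 ∧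
      ∀ q ∈ (n + a).primeFactors, (N : ℝ) ^ (1 / 8 : ℝ) ≤ q
  swap
  · have h4 : gC N (n + a) = 0 := by
      unfold gC
      rw [if_neg]
      intro h5
      exact ha h5.2
    rw [h4, mul_zero, zero_mul]
    split_ifs <;> norm_num
  by_cases h : ∀ h ∈ D, (n + h).primeFactorsList.length ≤ 2 ∧
      ∀ q ∈ (n + h).primeFactors, (N : ℝ) ^ (1 / 7 : ℝ) ≤ q
  · rw [if_pos ⟨hp, ha, h⟩]
    exact mul_le_one₀ e1 p0 p1
  · rw [if_neg (fun h2 => h h2.2.2)]
    apply le_of_eq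
    rw [not_forall] at h
    obtain ⟨s, hs⟩ := h
    rw [Classical.not_imp] at hs
    rw [prod_eq_zero hs.1, mul_zero]
    unfold g2
    rw [if_neg]
    intro h4
    exact hs.2 h4.2

/-- **almost prime tuples** with one fixed shift, for almost all sets of further shifts -/
theorem almostT2 : ∃ c : ℝ, 0 < c ∧ ∀ (k a : ℕ) (ε K : ℝ), 1 ≤ a → 0 < ε → 0 ≤ K → ∃ Λ : ℝ, 0 < Λ ∧
    ∀ᶠ N : ℕ in atTop, ∀ H : ℕ, Λ * Real.log N ≤ H → ∀ A ⊆ Icc 1 N, a ∉ A → (∀ s ∈ A, 2 * s ≤ N) → A.card ≤ H →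
    (∀ y : ℕ, ∑ q ∈ A.offDiag, gy y (CKT k 2) (dd q) ≤ K * (H : ℝ) ^ 2) →
    (∀ y : ℕ, ∑ s ∈ A, gy y (CKT k 2) (dd (0, s)) ≤ K * H) →
    (∀ y : ℕ, ∑ s ∈ A, gy y (CKT k 2) (dd (a, s)) ≤ K * H) → ∀ Bad : Finset (Finset ℕ),
    (∀ D ∈ Bad, D ∈ A.powersetCard (k + 1) ∧ Adm (pat (insert a D)) ∧
      (piT a D N : ℝ) < c ^ (k + 2) * CT (pat (insert a D)) * (N / Real.log N ^ (k + 3))) →
    (Bad.card : ℝ) ≤ ε * (H : ℝ) ^ (k + 1) := by
  classical
  obtain ⟨c₀', hc₀', STEP⟩ := stepR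
  obtain ⟨cC, hcC, BASE⟩ := baseT
  obtain ⟨cz, hcz, VZ⟩ := Vz_sharp
  obtain ⟨c₀, hc₀d⟩ : ∃ c₀ : ℝ, c₀ = min c₀' 1 := ⟨_, rfl⟩
  have hc₀ : 0 < c₀ := by rw [hc₀d]; exact lt_min hc₀' one_pos
  have hc₀3 : c₀ ≤ 1 := by rw [hc₀d]; exact min_le_right _ _
  have hc₀2 : c₀ ≤ c₀' := by rw [hc₀d]; exact min_le_left _ _
  obtain ⟨cs, hcs⟩ : ∃ cs : ℝ, cs = c₀ * cz := ⟨_, rfl⟩
  have hcs0 : 0 < cs := by rw [hcs]; positivity
  obtain ⟨c1, hc1⟩ : ∃ c1 : ℝ, c1 = cC * cz := ⟨_, rfl⟩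
  have hc10 : 0 < c1 := by rw [hc1]; positivity
  refine ⟨min cs c1 / 4, div_pos (lt_min hcs0 hc10) (by norm_num), fun k a ε K' ha hε hK' => ?_⟩
  have hcpow := pow_calc hcs0 hc10 k
  obtain ⟨cp, hcp, hlow⟩ := Pool.Agent.Y822.PT_low (k + 2)
  obtain ⟨τ, hτ⟩ : ∃ τ : ℝ, τ = 1 / 4 * cs ^ (k + 1) * c1 * cp := ⟨_, rfl⟩
  have hτ0 : 0 < τ := by rw [hτ]; positivity
  obtain ⟨δ, hδ⟩ : ∃ δ : ℝ, δ = τ / (4 * (k + 1)) := ⟨_, rfl⟩
  have hδ0 : 0 < δ := by rw [hδ]; positivity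
  obtain ⟨κ₀, hκ₀, hbase⟩ := BASE (k + 1)
  obtain ⟨K0, hK0⟩ : ∃ K0 : ℝ, K0 = 2 * ∏ p ∈ a.primeFactors, (1 + (CKT k 2 : ℝ) / (p : ℝ)) := ⟨_, rfl⟩
  have hCK0 : (0 : ℝ) ≤ (CKT k 2 : ℝ) := Nat.cast_nonneg _
  have hK00 : 0 ≤ K0 := by rw [hK0]; positivity
  obtain ⟨κ, Λ, hκ, hκK, hκ25, hΛ, hfew⟩ := few_R k 2 (δ := δ)
    (ε' := ε) (κm := κ₀) (Cv := 1 + K0 + 5 * K') hδ0 hε hκ₀ (by positivity)
  have hbase := hbase κ hκ hκK (k + 4) a ha
  obtain ⟨N₁, STEP⟩ := STEP κ hκ hκ25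
  -- the factor of one step
  obtain ⟨u, hu⟩ : ∃ u : ℝ, u = c₀ * κ := ⟨_, rfl⟩
  have hu0 : 0 < u := by rw [hu]; positivity
  have hu1 : u ≤ 1 := by rw [hu]; exact mul_le_one₀ hc₀3 hκ.le (by linarith)
  obtain ⟨M, hM⟩ : ∃ M : ℕ, M = 4 * (k + 3) ^ 3 * (⌈2 / κ⌉₊ + 1) + 3 := ⟨_, rfl⟩
  refine ⟨Λ, hΛ, ?_⟩
  filter_upwards [hbase, hfew, ev_logN (eventually_ge_atTop (max 1 ((M + 2) * (2 / κ)))),
    ev_small (k + 3) (by norm_num : (0 : ℝ) < 1 / 7) 12 hδ0,
    ev_logN (eventually_ge_atTop (1 / τ)), eventually_ge_atTop (max (max N₁ 4) a)]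
    with N hm hfew hL1' hs8 hLτ hN
  intro H hH1 A hAN haA hAN2 hAH hP2 hP0 hPa Bad hBad
  have hNN₁ : N₁ ≤ N := ((le_max_left _ _).trans (le_max_left _ _)).trans hN
  have hN4 : 4 ≤ N := ((le_max_right _ _).trans (le_max_left _ _)).trans hN
  have hN3 : 3 ≤ N := by omega
  have haN : a ≤ N := (le_max_right _ _).trans hN
  have hN2 : 2 ≤ N := by omega
  set L := Real.log N with hLd
  have hL1 : 1 ≤ L := (le_max_left _ _).trans hL1'
  have hLM : (M + 2) * (2 / κ) ≤ L := (le_max_right _ _).trans hL1'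
  have hL0 : 0 < L := by linarith
  have hN0 : (0 : ℝ) < N := by positivity
  have hNe : (N : ℝ) = Real.exp L := by rw [hLd, Real.exp_log hN0]
  have hrp : ∀ s : ℝ, (N : ℝ) ^ s = Real.exp (s * L) := by
    intro s
    rw [Real.rpow_def_of_pos hN0, ← hLd, mul_comm]
  -- the sifting limit
  obtain ⟨y, hy⟩ : ∃ y : ℕ, y + 1 = ⌈(N : ℝ) ^ κ⌉₊ := by
    have : 0 < ⌈(N : ℝ) ^ κ⌉₊ := Nat.ceil_pos.2 (by positivity)
    exact ⟨⌈(N : ℝ) ^ κ⌉₊ - 1, by omega⟩
  have hya : (y : ℝ) < (N : ℝ) ^ κ := Nat.lt_ceil.1 (by omega)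
  have hyb : (N : ℝ) ^ κ ≤ y + 1 := by
    have := Nat.le_ceil ((N : ℝ) ^ κ)
    rw [← hy] at this
    exact_mod_cast this
  have hya' : (y : ℝ) ≤ Real.exp (κ * L) := by rw [← hrp]; exact hya.le
  have hyb' : Real.exp (κ * L) ≤ y + 1 := by rw [← hrp]; exact hyb
  have hML : (M : ℝ) + 2 ≤ κ / 2 * L := by
    have h1 : (M : ℝ) + 2 = κ / 2 * ((M + 2) * (2 / κ)) := by field_simp
    rw [h1]
    exact mul_le_mul_of_nonneg_left hLM (by positivity)
  obtain ⟨_, _, y3, y4, _, y6⟩ := y_core (M := M) hκ (by omega : 1 ≤ N) hML hya' hyb'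
  have hy3 : 3 ≤ y := by omega
  have hy0 : (0 : ℝ) < y := by positivity
  have hVz0 : 0 ≤ Vz y := (Vz_pos' y).le
  have hly : 0 < Real.log y := Real.log_pos (by exact_mod_cast (by omega : 1 < y))
  have hlyu : Real.log y ≤ κ * L := by
    rw [← Real.log_exp (κ * L)]
    exact Real.log_le_log hy0 hya'
  have huV : cs / L ≤ u * Vz y := by
    have t5 : cz / (κ * L) ≤ Vz y := (div_le_div_of_nonneg_left hcz.le hly hlyu).trans (VZ y hy3)
    calc cs / L = u * (cz / (κ * L)) := by rw [hcs, hu]; field_simp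
      _ ≤ u * Vz y := mul_le_mul_of_nonneg_left t5 hu0.le
  have hvV : c1 / L ≤ cC * κ * Vz y := by
    have t5 : cz / (κ * L) ≤ Vz y := (div_le_div_of_nonneg_left hcz.le hly hlyu).trans (VZ y hy3)
    calc c1 / L = cC * κ * (cz / (κ * L)) := by rw [hc1]; field_simp
      _ ≤ cC * κ * Vz y := mul_le_mul_of_nonneg_left t5 (by positivity)
  -- the error of one step
  obtain ⟨X, hX⟩ : ∃ X : ℝ, X = N / L ^ (k + 3) := ⟨_, rfl⟩
  have hX0 : 0 < X := by rw [hX]; positivity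
  have h78 : 12 * (N : ℝ) ^ (6 / 7 : ℝ) ≤ δ * X := by
    rw [hrp, hX]
    have e : (6 / 7 : ℝ) * L = (1 - 1 / 7) * L := by ring
    rw [e]
    exact hs8
  have hx0 : 0 ≤ 4 * δ * X := by positivity
  have h0A : 0 ∉ A := fun h => by
    have := (mem_Icc.1 (hAN h)).1
    omega
  have hly1 : κ / 2 * L ≤ Real.log y := y4
  have hT2 : ({0, a} : Finset ℕ).card = 2 := by
    rw [card_insert_of_notMem (by rw [mem_singleton]; omega), card_singleton]
  obtain ⟨e, he⟩ : ∃ e : ℕ → ℝ, e = fun n => eP n * gC N (n + a) := ⟨_, rfl⟩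
  have hev : ∀ n, e n = eP n * gC N (n + a) := fun n => by rw [he]
  have hebd : ∀ n, 0 ≤ e n ∧ e n ≤ 1 := by
    intro n
    rw [hev]
    exact ⟨mul_nonneg (eP_bd n).1 (gC_bd N _).1, mul_le_one₀ (eP_bd n).2 (gC_bd N _).1 (gC_bd N _).2⟩
  have hg3ro : ∀ m, gC N m ≤ ro y m := by
    refine gC_le_ro ?_
    refine hya.trans_le (Real.rpow_le_rpow_of_exponent_le (by exact_mod_cast (by omega : 1 ≤ N)) ?_)
    linarith
  have hg2ro : ∀ m, g2 N m ≤ ro y m := by
    refine g2_le_ro ?_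
    refine hya.trans_le (Real.rpow_le_rpow_of_exponent_le (by exact_mod_cast (by omega : 1 ≤ N)) ?_)
    linarith
  rcases Bad.eq_empty_or_nonempty with rfl | ⟨D0, hD0⟩
  · rw [card_empty, Nat.cast_zero]
    positivity
  have hae : Even a := even_of_adm (hBad D0 hD0).2.1 a (mem_insert_self _ _)
  have hAsub : A.filter Even ⊆ A := filter_subset _ _
  have hdisj : Disjoint ({0, a} : Finset ℕ) A := by
    rw [disjoint_left]
    intro x hx hxA
    rw [mem_insert, mem_singleton] at hx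
    rcases hx with rfl | rfl
    · exact h0A hxA
    · exact haA hxA
  refine hfew y hya hyb (A.filter Even) {0, a} (Icc 1 y) hT2 ⟨0, mem_insert_self _ _⟩ ?_
    (hdisj.mono_right hAsub) ?_ ?_ e hebd ?_ (g2 N) ?_ H hH1 ((card_le_card hAsub).trans hAH) ?_ Bad ?_
  · rw [Nat.card_Icc, Nat.add_sub_cancel]
  · intro s hs
    exact Lo_half hN4 (hAN2 s (hAsub hs))
  · intro s hs t ht
    have hev2 : ∀ s ∈ A.filter Even ∪ {0, a}, Even s := by
      intro s hs
      rcases mem_union.1 hs with h | h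
      · exact (mem_filter.1 h).2
      · rw [mem_insert, mem_singleton] at h
        rcases h with rfl | rfl
        · exact Even.zero
        · exact hae
    exact (hev2 s hs).add (hev2 t ht)
  · intro n hn hny
    rw [Pool.Agent.J4.H38.SR2.rT_two (by omega), hev]
    refine mul_le_mul ?_ (hg3ro _) (gC_bd N _).1 (ro_nonneg _ _)
    unfold eP
    split_ifs with hp
    · unfold ro
      rw [if_pos]
      intro p hpp hpy hpn
      have h1 : p = n := (Nat.prime_dvd_prime_iff_eq hpp hp).1 hpn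
      refine hny (mem_Icc.2 ⟨hp.one_lt.le, ?_⟩)
      omega
    · exact ro_nonneg _ _
  · intro n
    exact ⟨(g2_bd N n).1, hg2ro n⟩
  · intro j hj
    have hsm : ∑ S ∈ (A.filter Even).powersetCard j, VT y ({0, a} ∪ S) ≤
        ∑ S ∈ A.powersetCard j, VT y ({0, a} ∪ S) :=
      sum_le_sum_of_subset_of_nonneg (powersetCard_mono hAsub) fun S _ _ => VT_nonneg _ _
    refine hsm.trans ?_
    have hoff : ∑ q ∈ ({0, a} : Finset ℕ).offDiag, gy y (CKT k ({0, a} : Finset ℕ).card) (dd q) ≤ K0 := by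
      rw [hT2, offDiag_two (by omega), sum_insert (by
        rw [mem_singleton, Prod.mk.injEq]
        rintro ⟨h1, _⟩
        omega), sum_singleton, dd_comm a 0, hK0]
      have h1 : gy y (CKT k 2) (dd (0, a)) ≤ ∏ p ∈ a.primeFactors, (1 + (CKT k 2 : ℝ) / (p : ℝ)) := by
        have h2 : dd (0, a) = a := by unfold dd; simp
        rw [h2]
        unfold gy
        refine prod_le_prod_of_subset_of_one_le ?_ (fun p _ => by positivity) fun p _ _ => ?_
        · intro p hp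
          rw [mem_filter, mem_pz] at hp
          exact Nat.mem_primeFactors.2 ⟨hp.1.2, hp.2, by omega⟩
        · have : 0 ≤ (CKT k 2 : ℝ) / (p : ℝ) := by positivity
          linarith
      linarith
    have hav := avgT k hK' hK00 hAH (T0 := {0, a}) (y := y) (by rw [hT2]; exact hP2 y) (by
      rw [hT2]
      intro t ht
      rw [mem_insert, mem_singleton] at ht
      rcases ht with rfl | rfl
      · exact hP0 y
      · exact hPa y) hoff j hj (by
      rw [disjoint_left]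
      intro x hx hxA
      rw [mem_insert, mem_singleton] at hx
      rcases hx with rfl | rfl
      · exact h0A hxA
      · exact haA hxA)
    rw [hT2] at hav
    refine hav.trans ?_
    have h1 : Vz y ≤ (2 / κ) / L := by
      refine (Vz_le y (by omega)).trans ?_
      rw [div_div, one_div_le hly (by positivity)]
      calc 1 / (2 / (κ * L)) = κ / 2 * L := by field_simp
        _ ≤ Real.log y := hly1
    have h2 : Vz y ^ (j + 2) ≤ ((2 / κ) / L) ^ (j + 2) := pow_le_pow_left₀ hVz0 h1 _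
    have h3 : Vz y ^ (j + 2) * (H : ℝ) ^ j ≤ (2 / κ) ^ (j + 2) * ((H : ℝ) ^ j / L ^ (j + 2)) := by
      calc Vz y ^ (j + 2) * (H : ℝ) ^ j ≤ ((2 / κ) / L) ^ (j + 2) * (H : ℝ) ^ j :=
            mul_le_mul_of_nonneg_right h2 (by positivity)
        _ = _ := by rw [div_pow]; ring
    have e5 : (1 + K0 + (1 + 2 * ((2 : ℕ) : ℝ)) * K') = 1 + K0 + 5 * K' := by
      push_cast
      ring
    rw [e5, mul_assoc]
    exact mul_le_mul_of_nonneg_left h3 (by positivity)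
  · intro D hD
    obtain ⟨b1, b2, b3⟩ := hBad D hD
    have hevD := even_of_adm b2
    refine ⟨?_, fun hg => ?_⟩
    · rw [mem_powersetCard] at b1 ⊢
      exact ⟨fun d hd => mem_filter.2 ⟨b1.1 hd, hevD d (mem_insert_of_mem hd)⟩, b1.2⟩
    rw [mem_powersetCard] at b1
    have h0 : 0 ∉ D := fun h => h0A (b1.1 h)
    have haD : a ∉ D := fun h => haA (b1.1 h)
    have hDN : ∀ h ∈ D, h ≤ N := fun h hh => (mem_Icc.1 (hAN (b1.1 hh))).2
    obtain ⟨T, hT⟩ : ∃ T, T = insert a D := ⟨_, rfl⟩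
    rw [← hT] at b2 b3
    have h0T : 0 ∉ T := by
      rw [hT, mem_insert]
      rintro (h | h)
      · omega
      · exact h0 h
    have hTc : T.card = k + 2 := by rw [hT, card_insert_of_notMem haD, b1.2]
    have hTN : ∀ h ∈ T, h ≤ N := by
      intro h hh
      rw [hT, mem_insert] at hh
      rcases hh with rfl | hh
      · exact haN
      · exact hDN h hh
    obtain ⟨c1', c2⟩ := hlow (pat T) (by rw [card_pat h0T, hTc]) b2
    have hCP : CT (pat T) ≤ 2 * PT (pat T) y := by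
      have g1 := CT_up (pat T) (2 * N) y (fun t ht => by
        unfold pat at ht
        rw [mem_insert] at ht
        rcases ht with rfl | ht
        · omega
        · have := hTN t ht
          omega) (by omega)
      rw [card_pat h0T, hTc] at g1
      refine g1.trans (mul_le_mul_of_nonneg_right ?_ (PT_nonneg _ _))
      have g6 : 2 * (((k + 2 + 1 : ℕ) : ℝ)) ^ 3 * (Nat.log y (2 * N)) / y ≤ 1 / 2 := by
        rw [div_le_div_iff₀ hy0 (by norm_num)]
        have g7 : 4 * (k + 3) ^ 3 * Nat.log y (2 * N) ≤ y := by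
          refine le_trans ?_ y3
          rw [hM]
          exact (Nat.mul_le_mul_left _ y6).trans (Nat.le_add_right _ _)
        have g8 : (4 * ((k : ℝ) + 3) ^ 3 * Nat.log y (2 * N)) ≤ y := by exact_mod_cast g7
        have g9 : (((k + 2 + 1 : ℕ) : ℝ)) ^ 3 = ((k : ℝ) + 3) ^ 3 := by push_cast; ring
        rw [g9]
        linarith
      calc Real.exp (2 * (((k + 2 + 1 : ℕ) : ℝ)) ^ 3 * (Nat.log y (2 * N)) / y) ≤ Real.exp (1 / 2) :=
            Real.exp_le_exp.2 g6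
        _ ≤ 2 := by
            have h6 : Real.exp (1 / 2) * Real.exp (-(1 / 2)) = 1 := by
              rw [← Real.exp_add]; norm_num
            have h7 := Real.exp_pos (1 / 2)
            have h8 : 1 / 2 ≤ Real.exp (-(1 / 2)) := by
              have := Real.add_one_le_exp (-(1 / 2) : ℝ)
              linarith
            nlinarith
    -- one step
    have hZ : ∀ t ∈ D, ∀ S1 ⊆ D.erase t,
        u * ∑ n ∈ Icc 1 N, WH e (g2 N) (ro y) (D.erase t) S1 n * ro y (n + t) - 4 * δ * X ≤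
          ∑ n ∈ Icc 1 N, WH e (g2 N) (ro y) (D.erase t) S1 n * g2 N (n + t) := by
      intro t ht S1 hS1
      set f := WH e (g2 N) (ro y) (D.erase t) S1 with hf
      have hf01 : ∀ n, 0 ≤ f n ∧ f n ≤ 1 := WH_bd hebd (g2_bd N) (ro_bd y) _ _
      have hgood := hg t ht S1 hS1
      rw [← hf, show k + 2 + 1 = k + 3 by ring, ← hX] at hgood
      have hs := STEP N hNN₁ y hyb f (fun n => (hf01 n).1) (fun n => (hf01 n).2) t (hDN t ht)
      have hW0 : 0 ≤ ∑ n ∈ Icc 1 N, f n * ro y (n + t) :=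
        sum_nonneg fun n _ => mul_nonneg (hf01 n).1 (ro_nonneg _ _)
      have h5 : u * ∑ n ∈ Icc 1 N, f n * ro y (n + t) ≤
          c₀' * κ * ∑ n ∈ Icc 1 N, f n * ro y (n + t) := by
        rw [hu]
        exact mul_le_mul_of_nonneg_right (mul_le_mul_of_nonneg_right hc₀2 hκ.le) hW0
      linarith
    have hlower := step_lower' (H := D) hx0 hu0.le hu1 hZ D (subset_refl _)
    rw [b1.2] at hlower
    have hmain := hm y hya hyb D h0 haD b1.2
    rw [← hT] at hmain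
    have hWH : ∑ n ∈ Icc 1 N, eP n * gC N (n + a) * ∏ t ∈ D, ro y (n + t) =
        ∑ n ∈ Icc 1 N, WH e (g2 N) (ro y) D ∅ n := by
      refine sum_congr rfl fun n _ => ?_
      unfold WH
      rw [prod_empty, one_mul, sdiff_empty, hev]
    rw [hWH] at hmain
    have hfull : ∑ n ∈ Icc 1 N, WH e (g2 N) (ro y) D D n ≤ piT a D N := by
      rw [he]
      exact WH_full_leT a N y D
    have hPT0 := PT_nonneg (pat T) y
    have hfin := low_calcC (k := k) (cs := cs) (c1 := c1) (cp := cp) (σ := 1) (L := L) (n := N) (u := u)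
      (V := Vz y) (PTy := PT (pat T) y)
      (W := ∑ n ∈ Icc 1 N, WH e (g2 N) (ro y) D ∅ n)
      (e := N / L ^ (k + 4)) (x := 4 * δ * X) (CTy := CT (pat T))
      (P := piT a D N) (v := cC * κ) hcs0 hc10 hL1 hN0 hu0.le hu1 huV hvV hPT0 (by rw [mul_one]; exact c1' y) hCP ?_
      (by positivity) ?_ ?_ (by push_cast at hlower; linarith)
    · have hCT0 : 0 ≤ CT (pat T) := CT_nonneg _
      have h9 : (min cs c1 / 4) ^ (k + 2) * CT (pat T) * (N / L ^ (k + 3)) ≤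
          1 / 4 * (cs ^ (k + 1) * c1) * CT (pat T) * (N / L ^ (k + 3)) := by
        apply mul_le_mul_of_nonneg_right _ (by positivity)
        exact mul_le_mul_of_nonneg_right hcpow hCT0
      linarith
    · exact hmain
    · rw [← hτ, mul_one]
      have h1 : (N : ℝ) / L ^ (k + 4) = 1 / L * (N / L ^ (k + 3)) := by
        rw [pow_succ L (k + 3)]
        field_simp
      rw [h1]
      refine mul_le_mul_of_nonneg_right ?_ (by positivity)
      rw [div_le_iff₀ hL0]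
      rw [div_le_iff₀ hτ0] at hLτ
      linarith
    · rw [← hτ, mul_one, ← hX, hδ]
      apply le_of_eq
      field_simp

end Pool.Agent.J4.H38.CH
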